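import Mathlib
import Pool.Agent.Helper82.TotSep.Str

/-!
# Equality forces the structure
-/

namespace Pool.Agent.Helper82.TotSep

open Finset

variable {V : Type*} {G : SimpleGraph V} {d : ℕ} {Λ : Type*}

lemma eq_sees_of_adj {L : FaceData G d} {M : Finset V} {lab : V → Λ} {F : Finset V} {x y : V}
    (hxy : G.Adj x y) (hx : x ∈ F) (hxM : x ∉ M) : Sees L M lab F y (lab x) := by
  obtain ⟨i, rfl⟩ := L.nb_surj y x hxy.symm
  exact ⟨i, mem_dir.mpr hx, hxM, rfl⟩

lemma eq_card_seers {L : FaceData G d} {M : Finset V} {lab : V → Λ} {k : ℕ} {F : Finset V}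
    (hlab : ∀ x y, G.Adj x y → x ∉ M → y ∉ M → lab x = lab y) (hF : IsFace L k F)
    (h2 : 2 ≤ (labs M lab F).card) {a : Λ} (ha : a ∈ labs M lab F) :
    k ≤ (seers L M lab F a).card := by
  by_contra hlt
  push Not at hlt
  obtain ⟨x0, hx0F, hx0M, hx0⟩ := mem_labs.mp ha
  obtain ⟨b, hb, hba⟩ := Finset.exists_mem_ne (s := labs M lab F) (by omega) a
  obtain ⟨x1, hx1F, hx1M, hx1⟩ := mem_labs.mp hb
  have key : ∀ x y, G.Adj x y → x ∈ F → y ∈ F → y ∉ seers L M lab F a → x ∉ M ∧ lab x = a →
      y ∉ M ∧ lab y = a := by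
    intro x y hxy hx hy hyT hxC
    by_cases hyM : y ∈ M
    · exfalso
      apply hyT
      rw [mem_seers]
      refine ⟨hy, hyM, ?_⟩
      rw [← hxC.2]
      exact eq_sees_of_adj hxy hx hxC.1
    · exact ⟨hyM, by rw [← hlab x y hxy hxC.1 hyM]; exact hxC.2⟩
  have h := (hF.conn (seers L M lab F a) {x | x ∉ M ∧ lab x = a} hlt
    (fun x y hxy hx hy hxT hyT => ⟨key x y hxy hx hy hyT, key y x hxy.symm hy hx hxT⟩)
    hx0F hx1F (fun h => hx0M (mem_seers.mp h).2.1) (fun h => hx1M (mem_seers.mp h).2.1)).mp
    ⟨hx0M, hx0⟩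
  exact hba (hx1.symm.trans h.2)

open Classical in
/-- the labels seen by `w` in `F` -/
noncomputable def eqSeen (L : FaceData G d) (M : Finset V) (lab : V → Λ) (F : Finset V) (w : V) :
    Finset Λ :=
  ((dir L F w).filter fun i => L.nb w i ∉ M).image fun i => lab (L.nb w i)

lemma mem_eqSeen {L : FaceData G d} {M : Finset V} {lab : V → Λ} {F : Finset V} {w : V} {a : Λ} :
    a ∈ eqSeen L M lab F w ↔ Sees L M lab F w a := by
  simp [eqSeen, Sees, and_assoc]

lemma eqSeen_subset {L : FaceData G d} {M : Finset V} {lab : V → Λ} {F : Finset V} {w : V} :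
    eqSeen L M lab F w ⊆ labs M lab F := by
  intro a ha
  obtain ⟨i, hi, h1, h2⟩ := mem_eqSeen.mp ha
  exact mem_labs.mpr ⟨_, mem_dir.mp hi, h1, h2⟩

lemma card_eqSeen_le {L : FaceData G d} {M : Finset V} {lab : V → Λ} {k : ℕ} {F : Finset V}
    (hF : IsFace L k F) {w : V} (hw : w ∈ F) : (eqSeen L M lab F w).card ≤ k := by
  classical
  rw [← hF.card_dir hw, eqSeen]
  exact Finset.card_image_le.trans (Finset.card_filter_le _ _)

lemma sum_seers {L : FaceData G d} {M : Finset V} {lab : V → Λ} {F : Finset V} :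
    ∑ a ∈ labs M lab F, (seers L M lab F a).card =
      ∑ w ∈ inner M F, (eqSeen L M lab F w).card := by
  classical
  have h1 : ∀ a ∈ labs M lab F, (seers L M lab F a).card =
      ∑ w ∈ inner M F, if Sees L M lab F w a then 1 else 0 := by
    intro a _
    rw [← Finset.card_filter]
    congr 1
    ext w
    rw [mem_seers, Finset.mem_filter, mem_inner, and_assoc]
  have h2 : ∀ w ∈ inner M F, (eqSeen L M lab F w).card =
      ∑ a ∈ labs M lab F, if Sees L M lab F w a then 1 else 0 := by
    intro w _
    rw [← Finset.card_filter]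
    congr 1
    ext a
    rw [mem_eqSeen, Finset.mem_filter]
    exact ⟨fun h => ⟨eqSeen_subset (mem_eqSeen.mpr h), h⟩, fun h => h.2⟩
  rw [Finset.sum_congr rfl h1, Finset.sum_congr rfl h2]
  exact Finset.sum_comm

theorem Tight.str {L : FaceData G d} {M : Finset V} {lab : V → Λ} {k : ℕ} {F : Finset V}
    (hlab : ∀ x y, G.Adj x y → x ∉ M → y ∉ M → lab x = lab y)
    (hT : Tight L M lab k F) : Str L M lab k F := by
  classical
  obtain ⟨hF, htwo, hle⟩ := hT
  -- the dimension is positive
  have hk : 1 ≤ k := by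
    by_contra hk
    obtain ⟨w, hw, w', hw', hne⟩ := Finset.one_lt_card.mp (show 1 < (inner M F).card by omega)
    rw [mem_inner] at hw hw'
    have h1 := hF.supp_subset hw.1 hw'.1
    have h2 := hF.card_dir hw.1
    have h3 : dir L F w = ∅ := Finset.card_eq_zero.mp (by omega)
    rw [h3, Finset.subset_empty] at h1
    exact hne (L.eq_self w w' h1).symm
  -- double counting
  have hs1 : ∀ a ∈ labs M lab F, k ≤ (seers L M lab F a).card := fun a ha =>
    eq_card_seers hlab hF (by omega) ha
  have hs2 : ∀ w ∈ inner M F, (eqSeen L M lab F w).card ≤ k := fun w hw =>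
    card_eqSeen_le hF (mem_inner.mp hw).1
  have hA : (labs M lab F).card * k ≤ ∑ a ∈ labs M lab F, (seers L M lab F a).card := by
    rw [← smul_eq_mul, ← Finset.sum_const]
    exact Finset.sum_le_sum hs1
  have hB : ∑ w ∈ inner M F, (eqSeen L M lab F w).card ≤ (inner M F).card * k := by
    rw [← smul_eq_mul, ← Finset.sum_const]
    exact Finset.sum_le_sum hs2
  rw [sum_seers] at hA
  have hcard : (labs M lab F).card = (inner M F).card := by
    have h := hA.trans hB
    have := Nat.le_of_mul_le_mul_right h hk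
    omega
  have hs1' : ∀ a ∈ labs M lab F, (seers L M lab F a).card = k := by
    have h1 : ∑ a ∈ labs M lab F, k = ∑ a ∈ labs M lab F, (seers L M lab F a).card := by
      rw [Finset.sum_const, smul_eq_mul, sum_seers]
      rw [hcard] at hA
      rw [hcard]
      omega
    intro a ha
    exact ((Finset.sum_eq_sum_iff_of_le hs1).mp h1 a ha).symm
  have hs2' : ∀ w ∈ inner M F, (eqSeen L M lab F w).card = k := by
    have h1 : ∑ w ∈ inner M F, (eqSeen L M lab F w).card = ∑ w ∈ inner M F, k := by
      rw [Finset.sum_const, smul_eq_mul]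
      rw [hcard] at hA
      omega
    intro w hw
    exact (Finset.sum_eq_sum_iff_of_le hs2).mp h1 w hw
  -- the neighbours of the nodes of `M`
  have hfil : ∀ w ∈ M, w ∈ F → (dir L F w).filter (fun i => L.nb w i ∉ M) = dir L F w := by
    intro w hwM hwF
    have h1 := hs2' w (mem_inner.mpr ⟨hwF, hwM⟩)
    have h2 : (eqSeen L M lab F w).card ≤ ((dir L F w).filter fun i => L.nb w i ∉ M).card :=
      Finset.card_image_le
    refine Finset.eq_of_subset_of_card_le (Finset.filter_subset _ _) ?_
    rw [hF.card_dir hwF, ← h1]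
    exact h2
  have hnot : ∀ w ∈ M, w ∈ F → ∀ i ∈ dir L F w, L.nb w i ∉ M := by
    intro w hwM hwF i hi
    rw [← hfil w hwM hwF] at hi
    exact (Finset.mem_filter.mp hi).2
  have hinj : ∀ w ∈ M, w ∈ F → ∀ i ∈ dir L F w, ∀ j ∈ dir L F w,
      lab (L.nb w i) = lab (L.nb w j) → i = j := by
    intro w hwM hwF i hi j hj hij
    have h1 := hs2' w (mem_inner.mpr ⟨hwF, hwM⟩)
    have h2 : (((dir L F w).filter fun i => L.nb w i ∉ M).image fun i => lab (L.nb w i)).card =
        ((dir L F w).filter fun i => L.nb w i ∉ M).card := by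
      rw [hfil w hwM hwF, hF.card_dir hwF]
      rw [eqSeen, hfil w hwM hwF] at h1
      exact h1
    have h3 := Finset.card_image_iff.mp h2
    rw [hfil w hwM hwF] at h3
    exact h3 (Finset.mem_coe.mpr hi) (Finset.mem_coe.mpr hj) hij
  have hpair : ∀ w ∈ M, w ∈ F → ∀ i ∈ dir L F w, ∀ j ∈ dir L F w, i ≠ j →
      ∃ w' ∈ seers L M lab F (lab (L.nb w i)), L.supp w w' = {i, j} := by
    intro w hwM hwF i hi j hj hij
    by_contra hcon
    push Not at hcon
    have hsub : ({i, j} : Finset (Fin d)) ⊆ dir L F w := by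
      intro m hm
      rw [Finset.mem_insert, Finset.mem_singleton] at hm
      rcases hm with rfl | rfl
      · exact hi
      · exact hj
    have key : ∀ x y, G.Adj x y → L.supp w x ⊆ {i, j} → L.supp w y ⊆ {i, j} → y ∉ ({w} : Finset V) →
        x ∉ M ∧ lab x = lab (L.nb w i) → y ∉ M ∧ lab y = lab (L.nb w i) := by
      intro x y hxy hx hy hyw hxC
      by_cases hyM : y ∈ M
      · exfalso
        have hxF : x ∈ F := (hF.mem_iff hwF).mpr (hx.trans hsub)
        have hyF : y ∈ F := (hF.mem_iff hwF).mpr (hy.trans hsub)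
        refine hcon y (mem_seers.mpr ⟨hyF, hyM, ?_⟩) ?_
        · rw [← hxC.2]
          exact eq_sees_of_adj hxy hxF hxC.1
        · have h0 : L.supp w y ≠ ∅ := fun h => hyw (Finset.mem_singleton.mpr (L.eq_self w y h))
          have h1 : L.supp w y ≠ {i} := fun h => by
            have := L.eq_nb w y i h
            rw [this] at hyM
            exact hnot w hwM hwF i hi hyM
          have h2 : L.supp w y ≠ {j} := fun h => by
            have := L.eq_nb w y j h
            rw [this] at hyM
            exact hnot w hwM hwF j hj hyM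
          have h3 : L.supp w y ∈ ({i, j} : Finset (Fin d)).powerset := Finset.mem_powerset.mpr hy
          rw [Finset.powerset_insert, Finset.mem_union, Finset.mem_image] at h3
          rcases h3 with h | ⟨t, ht, h⟩
          · rw [Finset.mem_powerset, Finset.subset_singleton_iff] at h
            rcases h with h | h
            · exact absurd h h0
            · exact absurd h h2
          · rw [Finset.mem_powerset, Finset.subset_singleton_iff] at ht
            rcases ht with rfl | rfl
            · exact absurd (by rw [← h]; simp) h1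
            · exact h.symm
      · exact ⟨hyM, by rw [← hlab x y hxy hxC.1 hyM]; exact hxC.2⟩
    have hcard2 : ({i, j} : Finset (Fin d)).card = 2 := Finset.card_pair hij
    have hne : ∀ m, L.nb w m ∉ ({w} : Finset V) := fun m h =>
      (L.adj_nb w m).ne (Finset.mem_singleton.mp h).symm
    have h := (L.conn w {i, j} {w} {x | x ∉ M ∧ lab x = lab (L.nb w i)}
      (by rw [hcard2, Finset.card_singleton]; omega)
      (fun x y hxy hx hy hxT hyT => ⟨key x y hxy hx hy hyT, key y x hxy.symm hy hx hxT⟩)
      (L.nb w i) (L.nb w j) (by rw [L.supp_nb]; simp) (by rw [L.supp_nb]; simp) (hne i) (hne j)).mp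
      ⟨hnot w hwM hwF i hi, rfl⟩
    exact hij (hinj w hwM hwF i hi j hj h.2.symm)
  -- the supports of the seers
  have himg : ∀ w ∈ M, w ∈ F → ∀ i ∈ dir L F w,
      (seers L M lab F (lab (L.nb w i))).image (L.supp w) =
        insert ∅ (((dir L F w).erase i).image fun j => ({i, j} : Finset (Fin d))) ∧
      Set.InjOn (L.supp w) (seers L M lab F (lab (L.nb w i)) : Set V) := by
    intro w hwM hwF i hi
    have ha : lab (L.nb w i) ∈ labs M lab F :=
      mem_labs.mpr ⟨L.nb w i, mem_dir.mp hi, hnot w hwM hwF i hi, rfl⟩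
    have hws : w ∈ seers L M lab F (lab (L.nb w i)) :=
      mem_seers.mpr ⟨hwF, hwM, i, hi, hnot w hwM hwF i hi, rfl⟩
    have hsub : insert ∅ (((dir L F w).erase i).image fun j => ({i, j} : Finset (Fin d))) ⊆
        (seers L M lab F (lab (L.nb w i))).image (L.supp w) := by
      intro t ht
      rw [Finset.mem_insert, Finset.mem_image] at ht
      rcases ht with rfl | ⟨j, hj, rfl⟩
      · exact Finset.mem_image.mpr ⟨w, hws, L.supp_self w⟩
      · rw [Finset.mem_erase] at hj
        obtain ⟨w', hw', hs⟩ := hpair w hwM hwF i hi j hj.2 (Ne.symm hj.1)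
        exact Finset.mem_image.mpr ⟨w', hw', hs⟩
    have hc : (insert ∅ (((dir L F w).erase i).image fun j => ({i, j} : Finset (Fin d)))).card
        = k := by
      rw [Finset.card_insert_of_notMem, Finset.card_image_of_injOn, Finset.card_erase_of_mem hi,
        hF.card_dir hwF]
      · omega
      · intro j hj j' hj' h
        rw [Finset.mem_coe, Finset.mem_erase] at hj hj'
        have h1 : j ∈ ({i, j'} : Finset (Fin d)) := by
          have h2 : ({i, j} : Finset (Fin d)) = {i, j'} := h
          rw [← h2]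
          simp
        rw [Finset.mem_insert, Finset.mem_singleton] at h1
        exact h1.resolve_left hj.1
      · intro h
        obtain ⟨j, _, hj⟩ := Finset.mem_image.mp h
        exact Finset.insert_ne_empty i {j} hj
    have h1 : ((seers L M lab F (lab (L.nb w i))).image (L.supp w)).card ≤ k := by
      rw [← hs1' _ ha]
      exact Finset.card_image_le
    have heq := Finset.eq_of_subset_of_card_le hsub (by rw [hc]; exact h1)
    refine ⟨heq.symm, ?_⟩
    apply Finset.card_image_iff.mp
    rw [← heq, hc, hs1' _ ha]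
  refine ⟨hF, htwo, hcard, hnot, hinj, hs1', hpair, ?_, ?_⟩
  · intro w hwM hwF i hi w' hw' hne
    have h1 : L.supp w w' ∈ (seers L M lab F (lab (L.nb w i))).image (L.supp w) :=
      Finset.mem_image_of_mem _ hw'
    rw [(himg w hwM hwF i hi).1, Finset.mem_insert, Finset.mem_image] at h1
    rcases h1 with h | ⟨j, hj, h⟩
    · exact absurd (L.eq_self w w' h) hne
    · rw [Finset.mem_erase] at hj
      exact ⟨j, hj.2, hj.1, h.symm⟩
  · intro w hwM hwF i hi w' hw' w'' hw'' h
    exact (himg w hwM hwF i hi).2 (Finset.mem_coe.mpr hw') (Finset.mem_coe.mpr hw'') h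

end Pool.Agent.Helper82.TotSep
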