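import Mathlib
import Pool.Agent.Helper82.TotSep.Str

/-!
# The facets of a fat node
-/

namespace Pool.Agent.Helper82.TotSep

open Finset

variable {V : Type*} [Fintype V] {G : SimpleGraph V} {d : ℕ} {Λ : Type*}

lemma ft_mem_G {L : FaceData G d} {k : ℕ} {F : Finset V} (hF : IsFace L (k + 1) F) {w : V}
    (hw : w ∈ F) {l : Fin d} {x : V} (hx : x ∈ F) :
    x ∈ faceOf L w ((dir L F w).erase l) ↔ l ∉ L.supp w x := by
  rw [mem_faceOf]
  have hs := hF.supp_subset hw hx
  constructor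
  · intro h hl
    exact (Finset.mem_erase.mp (h hl)).1 rfl
  · intro h i hi
    exact Finset.mem_erase.mpr ⟨fun h' => h (h' ▸ hi), hs hi⟩

lemma ft_facet_iff {L : FaceData G d} {k : ℕ} {F : Finset V} (hF : IsFace L (k + 1) F) {w : V}
    (hw : w ∈ F) {H : Finset V} : (H ∈ facets L k F ∧ w ∈ H) ↔
      ∃ l ∈ dir L F w, faceOf L w ((dir L F w).erase l) = H := by
  constructor
  · rintro ⟨hH, hwH⟩
    rw [mem_facets] at hH
    obtain ⟨l, -, -, hd, hl, -⟩ := hF.exists_out hH.2 hH.1 hwH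
    refine ⟨l, hl, ?_⟩
    rw [← hd]
    exact (hH.2.eq_faceOf hwH).symm
  · rintro ⟨l, hl, rfl⟩
    have := hF.facetOf hw hl
    exact ⟨mem_facets.mpr ⟨this.2, this.1⟩, self_mem_faceOf⟩

lemma ft_inj {L : FaceData G d} {F : Finset V} {w : V} {l l' : Fin d} (hl : l ∈ dir L F w)
    (h : faceOf L w ((dir L F w).erase l) = faceOf L w ((dir L F w).erase l')) : l = l' := by
  have h1 := congrArg (fun H => dir L H w) h
  simp only [dir_faceOf] at h1
  by_contra hne
  have : l ∈ (dir L F w).erase l' := Finset.mem_erase.mpr ⟨hne, hl⟩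
  rw [← h1] at this
  exact (Finset.mem_erase.mp this).1 rfl

section

variable {L : FaceData G d} {M : Finset V} {lab : V → Λ} {k : ℕ} {F : Finset V}

/-- the `a`-edge of a seer lies in every facet which contains another seer -/
lemma ft_key (hS : Str L M lab (k + 1) F) {w w' : V} (hw : w ∈ M) (hwF : w ∈ F) {i : Fin d}
    (hi : i ∈ dir L F w) (hw' : w' ∈ seers L M lab F (lab (L.nb w i))) (hne : w' ≠ w)
    {H : Finset V} (hH : H ∈ facets L k F) (hwH : w ∈ H) (hwH' : w' ∈ H) : L.nb w i ∈ H := by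
  obtain ⟨j, hj, hji, hsupp⟩ := hS.uniq w hw hwF i hi w' hw' hne
  obtain ⟨l, hl, rfl⟩ := (ft_facet_iff hS.face hwF).mp ⟨hH, hwH⟩
  rw [ft_mem_G hS.face hwF (mem_seers.mp hw').1, hsupp] at hwH'
  rw [ft_mem_G hS.face hwF (mem_dir.mp hi), L.supp_nb]
  intro h
  apply hwH'
  rw [Finset.mem_singleton] at h
  rw [h]
  exact Finset.mem_insert_self _ _

/-- a seer of a facet sees through the right edge -/
lemma ft_sees (hS : Str L M lab (k + 1) F) {w : V} (hw : w ∈ M) (hwF : w ∈ F) {i : Fin d}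
    (hi : i ∈ dir L F w) {H : Finset V} (hH : H ∈ facets L k F)
    (hs : Sees L M lab H w (lab (L.nb w i))) : L.nb w i ∈ H := by
  obtain ⟨j, hj, -, hlab⟩ := hs
  have hjF : j ∈ dir L F w := mem_dir.mpr ((mem_facets.mp hH).1 (mem_dir.mp hj))
  have := hS.inj w hw hwF j hjF i hi hlab
  rw [← this]
  exact mem_dir.mp hj

lemma ft_mem_fat (hS : Str L M lab (k + 1) F) {w : V} (hw : w ∈ M) (hwF : w ∈ F) {i : Fin d}
    (hi : i ∈ dir L F w) {H : Finset V} : H ∈ fat L M lab k F (L.nb w i) ↔ H ∈ facets L k F ∧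
      ∃ w', w' ∈ M ∧ w' ∈ H ∧ Sees L M lab H w' (lab (L.nb w i)) := by
  have h1 := hS.notMem w hw hwF i hi
  rw [mem_fat]
  constructor
  · rintro ⟨h2, h3 | h3⟩
    · exact absurd h3.1 h1
    · exact ⟨h2, h3.2⟩
  · rintro ⟨h2, h3⟩
    exact ⟨h2, Or.inr ⟨h1, h3⟩⟩

lemma ft_inter1 (hS : Str L M lab (k + 1) F) {w : V} (hw : w ∈ M) (hwF : w ∈ F) {i : Fin d}
    (hi : i ∈ dir L F w) {H : Finset V} (hH : H ∈ fat L M lab k F (L.nb w i)) (hwH : w ∈ H) :
    L.nb w i ∈ H := by
  rw [ft_mem_fat hS hw hwF hi] at hH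
  obtain ⟨h1, w', h2, h3, h4⟩ := hH
  by_cases hne : w' = w
  · rw [hne] at h4
    exact ft_sees hS hw hwF hi h1 h4
  · refine ft_key hS hw hwF hi ?_ hne h1 hwH h3
    exact mem_seers.mpr ⟨(mem_facets.mp h1).1 h3, h2, h4.mono (mem_facets.mp h1).1⟩

open Classical in
lemma ft_inter2 (hS : Str L M lab (k + 1) F) {w : V} (hw : w ∈ M) (hwF : w ∈ F) {i : Fin d}
    (hi : i ∈ dir L F w) :
    ((fat L M lab k F (L.nb w i)).filter fun H => w ∈ H).card = k := by
  have h : ((fat L M lab k F (L.nb w i)).filter fun H => w ∈ H) =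
      ((dir L F w).erase i).image fun l => faceOf L w ((dir L F w).erase l) := by
    ext H
    rw [Finset.mem_filter, Finset.mem_image]
    constructor
    · rintro ⟨h1, h2⟩
      have h3 := ft_inter1 hS hw hwF hi h1 h2
      obtain ⟨l, hl, rfl⟩ := (ft_facet_iff hS.face hwF).mp ⟨(mem_fat.mp h1).1, h2⟩
      refine ⟨l, Finset.mem_erase.mpr ⟨?_, hl⟩, rfl⟩
      rw [ft_mem_G hS.face hwF (mem_dir.mp hi), L.supp_nb, Finset.mem_singleton] at h3
      exact h3
    · rintro ⟨l, hl, rfl⟩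
      rw [Finset.mem_erase] at hl
      have h4 := (ft_facet_iff hS.face hwF).mpr ⟨l, hl.2, rfl⟩
      refine ⟨(ft_mem_fat hS hw hwF hi).mpr ⟨h4.1, w, hw, h4.2, i, ?_, hS.notMem w hw hwF i hi, rfl⟩,
        h4.2⟩
      rw [mem_dir, ft_mem_G hS.face hwF (mem_dir.mp hi), L.supp_nb, Finset.mem_singleton]
      exact hl.1
  rw [h, Finset.card_image_of_injOn, Finset.card_erase_of_mem hi, hS.face.card_dir hwF]
  · omega
  · intro l hl l' hl' hll
    exact ft_inj (Finset.mem_of_mem_erase hl) hll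

/-- facets of the fat node which miss the seer `w`, seen from another seer -/
lemma ft_out (hS : Str L M lab (k + 1) F) {w w' : V} (hw : w ∈ M) (hwF : w ∈ F)
    {i i' : Fin d} (hi : i ∈ dir L F w) (hw' : w' ∈ M) (hwF' : w' ∈ F) (hi' : i' ∈ dir L F w')
    (hlab : lab (L.nb w' i') = lab (L.nb w i)) (hne : w' ≠ w) :
    ∃ l' ∈ dir L F w', l' ≠ i' ∧ L.supp w' w = {i', l'} ∧
      ∀ H ∈ facets L k F, w' ∈ H → (L.nb w' i' ∈ H ∧ w ∉ H ↔
        H = faceOf L w' ((dir L F w').erase l')) := by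
  have hws : w ∈ seers L M lab F (lab (L.nb w' i')) := by
    rw [hlab]
    exact mem_seers.mpr ⟨hwF, hw, i, hi, hS.notMem w hw hwF i hi, rfl⟩
  obtain ⟨l', hl', hli, hsupp⟩ := hS.uniq w' hw' hwF' i' hi' w hws (Ne.symm hne)
  refine ⟨l', hl', hli, hsupp, fun H hH hwH => ?_⟩
  obtain ⟨l, hl, rfl⟩ := (ft_facet_iff hS.face hwF').mp ⟨hH, hwH⟩
  rw [ft_mem_G hS.face hwF' (mem_dir.mp hi'), ft_mem_G hS.face hwF' hwF, hsupp, L.supp_nb,
    Finset.mem_singleton, Finset.mem_insert, Finset.mem_singleton, not_not]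
  constructor
  · rintro ⟨h1, h2 | h2⟩
    · exact absurd h2 h1
    · rw [h2]
  · intro h
    have := ft_inj hl h
    rw [this]
    exact ⟨hli, Or.inr rfl⟩

open Classical in
lemma ft_card (hS : Str L M lab (k + 1) F) (hk : 1 ≤ k) {w : V} (hw : w ∈ M) (hwF : w ∈ F)
    {i : Fin d} (hi : i ∈ dir L F w) : (fat L M lab k F (L.nb w i)).card = k + 1 := by
  have h1 := ft_inter2 hS hw hwF hi
  -- another seer
  obtain ⟨j, hj, hji⟩ : ∃ j ∈ dir L F w, j ≠ i := by
    have hc := hS.face.card_dir hwF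
    have : 0 < ((dir L F w).erase i).card := by
      rw [Finset.card_erase_of_mem hi]; omega
    obtain ⟨j, hj⟩ := Finset.card_pos.mp this
    exact ⟨j, Finset.mem_of_mem_erase hj, (Finset.mem_erase.mp hj).1⟩
  obtain ⟨w', hw's, hsupp⟩ := hS.pair w hw hwF i hi j hj (Ne.symm hji)
  have hne : w' ≠ w := by
    rintro rfl
    rw [L.supp_self] at hsupp
    exact (Finset.insert_ne_empty _ _) hsupp.symm
  obtain ⟨hwF', hw', i', hi', hnM, hlab⟩ := mem_seers.mp hw's
  obtain ⟨l', hl', hli', hs', hchar⟩ := ft_out hS hw hwF hi hw' hwF' hi' hlab hne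
  set H0 := faceOf L w' ((dir L F w').erase l') with hH0
  have hH0f := (ft_facet_iff hS.face hwF').mpr ⟨l', hl', rfl⟩
  rw [← hH0] at hH0f
  have hH0c := (hchar H0 hH0f.1 hH0f.2).mpr rfl
  have h2 : ((fat L M lab k F (L.nb w i)).filter fun H => ¬ w ∈ H) = {H0} := by
    ext H
    rw [Finset.mem_filter, Finset.mem_singleton]
    constructor
    · rintro ⟨h3, h4⟩
      rw [ft_mem_fat hS hw hwF hi] at h3
      obtain ⟨h5, w'', h6, h7, h8⟩ := h3
      have hwF'' : w'' ∈ F := (mem_facets.mp h5).1 h7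
      have hne'' : w'' ≠ w := fun h => h4 (h ▸ h7)
      obtain ⟨i'', hi'', hnM'', hlab''⟩ := h8
      have hiF'' : i'' ∈ dir L F w'' := mem_dir.mpr ((mem_facets.mp h5).1 (mem_dir.mp hi''))
      obtain ⟨l'', hl'', hli'', hs'', hchar''⟩ :=
        ft_out hS hw hwF hi h6 hwF'' hiF'' hlab'' hne''
      have e1 := (hchar'' H h5 h7).mp ⟨mem_dir.mp hi'', h4⟩
      by_cases hww : w'' = w'
      · subst hww
        have : i'' = i' := hS.inj w'' h6 hwF'' i'' hiF'' i' hi' (hlab''.trans hlab.symm)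
        subst this
        exact (hchar H h5 h7).mp ⟨mem_dir.mp hi'', h4⟩
      · -- the facet of `w''` contains `w'`
        have hw's'' : w' ∈ seers L M lab F (lab (L.nb w'' i'')) := by rw [hlab'']; exact hw's
        have hmem : w' ∈ H := by
          by_contra hnot
          rw [e1, ft_mem_G hS.face hwF'' hwF', not_not] at hnot
          obtain ⟨m, hm, hmi, hsm⟩ := hS.uniq w'' h6 hwF'' i'' hiF'' w' hw's'' (Ne.symm hww)
          rw [hsm, Finset.mem_insert, Finset.mem_singleton] at hnot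
          rcases hnot with h | h
          · exact hli'' h
          · rw [← h] at hsm
            have hws : w ∈ seers L M lab F (lab (L.nb w'' i'')) := by
              rw [hlab'']
              exact mem_seers.mpr ⟨hwF, hw, i, hi, hS.notMem w hw hwF i hi, rfl⟩
            exact hne (hS.uniq' w'' h6 hwF'' i'' hiF'' w' hw's'' w hws (hsm.trans hs''.symm))
        have hnb : L.nb w' i' ∈ H := by
          have hw''s : w'' ∈ seers L M lab F (lab (L.nb w' i')) := by
            rw [hlab]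
            exact mem_seers.mpr ⟨hwF'', h6, i'', hiF'', hnM'', hlab''⟩
          exact ft_key hS hw' hwF' hi' hw''s hww h5 hmem h7
        exact (hchar H h5 hmem).mp ⟨hnb, h4⟩
    · rintro rfl
      refine ⟨(ft_mem_fat hS hw hwF hi).mpr ⟨hH0f.1, w', hw', hH0f.2, i', ?_, hnM, hlab⟩, hH0c.2⟩
      exact mem_dir.mpr hH0c.1
  have h3 := Finset.card_filter_add_card_filter_not (s := fat L M lab k F (L.nb w i))
    (fun H => w ∈ H)
  rw [h1, h2, Finset.card_singleton] at h3
  exact h3.symm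

end

/-- A fat node lies in exactly `k + 1` facets. -/
theorem Str.card_fat {L : FaceData G d} {M : Finset V} {lab : V → Λ} {k : ℕ} {F : Finset V}
    (hlab : ∀ x y, G.Adj x y → x ∉ M → y ∉ M → lab x = lab y) (hS : Str L M lab (k + 1) F)
    (hk : 1 ≤ k) {x : V} (hx : x ∈ F) : (fat L M lab k F x).card = k + 1 := by
  classical
  by_cases hxM : x ∈ M
  · have h : fat L M lab k F x =
        (dir L F x).image fun l => faceOf L x ((dir L F x).erase l) := by
      ext H
      rw [mem_fat, Finset.mem_image, ← ft_facet_iff hS.face hx]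
      constructor
      · rintro ⟨h1, h2 | h2⟩
        · exact ⟨h1, h2.2⟩
        · exact absurd hxM h2.1
      · rintro ⟨h1, h2⟩
        exact ⟨h1, Or.inl ⟨hxM, h2⟩⟩
    rw [h, Finset.card_image_of_injOn, hS.face.card_dir hx]
    intro l hl l' hl' hll
    exact ft_inj hl hll
  · have ha : lab x ∈ labs M lab F := mem_labs.mpr ⟨x, hx, hxM, rfl⟩
    have hc := hS.card_seers _ ha
    obtain ⟨w, hw⟩ : (seers L M lab F (lab x)).Nonempty := by
      rw [← Finset.card_pos, hc]; omega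
    obtain ⟨hwF, hwM, i, hi, hnM, hl⟩ := mem_seers.mp hw
    have e : fat L M lab k F x = fat L M lab k F (L.nb w i) := by
      ext H
      rw [mem_fat, mem_fat, hl]
      simp only [hxM, hnM, false_and, not_false_eq_true, true_and, false_or]
    rw [e]
    exact ft_card hS hk hwM hwF hi

open Classical in
/-- The facets of a fat node which contain a seer. -/
theorem Str.fat_inter {L : FaceData G d} {M : Finset V} {lab : V → Λ} {k : ℕ} {F : Finset V}
    (hlab : ∀ x y, G.Adj x y → x ∉ M → y ∉ M → lab x = lab y) (hS : Str L M lab (k + 1) F)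
    (hk : 1 ≤ k) {w : V} (hw : w ∈ M) (hwF : w ∈ F) {i : Fin d} (hi : i ∈ dir L F w) :
    (∀ H ∈ fat L M lab k F (L.nb w i), w ∈ H → L.nb w i ∈ H) ∧
      ((fat L M lab k F (L.nb w i)).filter fun H => w ∈ H).card = k :=
  ⟨fun _ hH hwH => ft_inter1 hS hw hwF hi hH hwH, ft_inter2 hS hw hwF hi⟩

end Pool.Agent.Helper82.TotSep
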