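import Mathlib
import Pool.Agent.Helper82.TotSep.Str

/-!
# Facets of tight faces
-/

namespace Pool.Agent.Helper82.TotSep

open Finset

variable {V : Type*} {G : SimpleGraph V} {d : ℕ} {Λ : Type*}

/-- the edge from a node outside `M` shows its label -/
lemma fc_sees {L : FaceData G d} {M : Finset V} {lab : V → Λ} {F : Finset V} {x y : V}
    (hxy : G.Adj x y) (hx : x ∈ F) (hxM : x ∉ M) : Sees L M lab F y (lab x) := by
  obtain ⟨i, hi⟩ := L.nb_surj y x hxy.symm
  exact ⟨i, mem_dir.mpr (by rw [hi]; exact hx), by rw [hi]; exact hxM, by rw [hi]⟩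

/-- step (1): the label of the edge leaving `H` does not occur in `H` -/
lemma fc_out_notMem {L : FaceData G d} {M : Finset V} {lab : V → Λ} {k : ℕ} {F H : Finset V}
    (hlab : ∀ x y, G.Adj x y → x ∉ M → y ∉ M → lab x = lab y) (hS : Str L M lab (k + 1) F)
    (hH : IsFace L k H) (hHF : H ⊆ F) (hk : 1 ≤ k) {w : V} (hw : w ∈ H) (hwM : w ∈ M)
    {l : Fin d} (hl : l ∈ dir L F w) (hlH : l ∉ dir L H w) :
    lab (L.nb w l) ∉ labs M lab H := by
  classical
  intro hmem
  set a := lab (L.nb w l) with ha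
  obtain ⟨x, hxH, hxM, hxa⟩ := mem_labs.mp hmem
  have hwT : w ∉ seers L M lab H a := by
    intro h
    obtain ⟨-, -, i, hi, -, hia⟩ := mem_seers.mp h
    have : i = l := hS.inj w hwM (hHF hw) i (mem_dir.mpr (hHF (mem_dir.mp hi))) l hl hia
    exact hlH (this ▸ hi)
  have hcard : k ≤ (seers L M lab H a).card := by
    by_contra hlt
    have hxT : x ∉ seers L M lab H a := fun h => hxM (mem_seers.mp h).2.1
    have := (hH.conn (seers L M lab H a) {x | x ∉ M ∧ lab x = a} (by omega) (by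
      intro x y hxy hx hy hxT hyT
      constructor
      · rintro ⟨h1, h2⟩
        by_cases hyM : y ∈ M
        · exact absurd (mem_seers.mpr ⟨hy, hyM, h2 ▸ fc_sees hxy hx h1⟩) hyT
        · exact ⟨hyM, (hlab x y hxy h1 hyM) ▸ h2⟩
      · rintro ⟨h1, h2⟩
        by_cases hxM : x ∈ M
        · exact absurd (mem_seers.mpr ⟨hx, hxM, h2 ▸ fc_sees hxy.symm hy h1⟩) hxT
        · exact ⟨hxM, (hlab x y hxy hxM h1) ▸ h2⟩) hxH hw hxT hwT).mp ⟨hxM, hxa⟩
    exact this.1 hwM
  have haF : a ∈ labs M lab F := mem_labs.mpr ⟨x, hHF hxH, hxM, hxa⟩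
  have hlM : L.nb w l ∉ M := hS.notMem w hwM (hHF hw) l hl
  have hsub : insert w (seers L M lab H a) ⊆ seers L M lab F a := by
    intro y hy
    rcases Finset.mem_insert.mp hy with rfl | hy
    · exact mem_seers.mpr ⟨hHF hw, hwM, l, hl, hlM, rfl⟩
    · obtain ⟨h1, h2, h3⟩ := mem_seers.mp hy
      exact mem_seers.mpr ⟨hHF h1, h2, h3.mono hHF⟩
  have heq : insert w (seers L M lab H a) = seers L M lab F a := by
    apply Finset.eq_of_subset_of_card_le hsub
    rw [hS.card_seers a haF, Finset.card_insert_of_notMem hwT]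
    omega
  have hout : ∀ y, y ∈ seers L M lab F a → y ∈ H := by
    intro y hy
    rw [← heq] at hy
    rcases Finset.mem_insert.mp hy with rfl | hy
    · exact hw
    · exact (mem_seers.mp hy).1
  have hlout : L.nb w l ∉ H := fun h => hlH (mem_dir.mpr h)
  have hall : ∀ y ∈ F, y ∉ H → lab y = a := by
    intro y hy hyH
    have := (hS.face.compl hH hHF {x | x ∉ M ∧ lab x = a} (by
      intro x y hxy hx hxH hy hyH
      constructor
      · rintro ⟨h1, h2⟩
        by_cases hyM : y ∈ M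
        · exact absurd (hout y (mem_seers.mpr ⟨hy, hyM, h2 ▸ fc_sees hxy hx h1⟩)) hyH
        · exact ⟨hyM, (hlab x y hxy h1 hyM) ▸ h2⟩
      · rintro ⟨h1, h2⟩
        by_cases hxM : x ∈ M
        · exact absurd (hout x (mem_seers.mpr ⟨hx, hxM, h2 ▸ fc_sees hxy.symm hy h1⟩)) hxH
        · exact ⟨hxM, (hlab x y hxy hxM h1) ▸ h2⟩) (mem_dir.mp hl) hlout hy hyH).mp ⟨hlM, rfl⟩
    exact this.2
  obtain ⟨t, ht⟩ := Finset.card_pos.mp (lt_of_lt_of_le hk hcard)
  obtain ⟨htH, htM, i, hi, -, hia⟩ := mem_seers.mp ht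
  obtain ⟨m, hmF, hmH, -, hm, hmH'⟩ := hS.face.exists_out hH hHF htH
  have h1 := hall _ hmF hmH
  have : i = m := hS.inj t htM (hHF htH) i (mem_dir.mpr (hHF (mem_dir.mp hi))) m hm
    (hia.trans h1.symm)
  exact hmH' (this ▸ hi)

/-- step (3): at most `k` seers in `H` -/
lemma fc_card_seers {L : FaceData G d} {M : Finset V} {lab : V → Λ} {k : ℕ} {F H : Finset V}
    (hlab : ∀ x y, G.Adj x y → x ∉ M → y ∉ M → lab x = lab y) (hS : Str L M lab (k + 1) F)
    (hH : IsFace L k H) (hHF : H ⊆ F) {b : Λ} (hb : b ∈ labs M lab H) :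
    (seers L M lab H b).card ≤ k := by
  classical
  by_contra hlt
  obtain ⟨x, hxH, hxM, hxb⟩ := mem_labs.mp hb
  have hbF : b ∈ labs M lab F := mem_labs.mpr ⟨x, hHF hxH, hxM, hxb⟩
  have hsub : seers L M lab H b ⊆ seers L M lab F b := by
    intro y hy
    obtain ⟨h1, h2, h3⟩ := mem_seers.mp hy
    exact mem_seers.mpr ⟨hHF h1, h2, h3.mono hHF⟩
  have heq : seers L M lab H b = seers L M lab F b := by
    apply Finset.eq_of_subset_of_card_le hsub
    rw [hS.card_seers b hbF]
    omega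
  have hout : ∀ y, y ∈ seers L M lab F b → y ∈ H := by
    intro y hy
    rw [← heq] at hy
    exact (mem_seers.mp hy).1
  have hclosed : ∀ x y, G.Adj x y → x ∈ F → x ∉ H → y ∈ F → y ∉ H →
      (x ∈ {x | x ∉ M ∧ lab x = b} ↔ y ∈ {x | x ∉ M ∧ lab x = b}) := by
    intro x y hxy hx hxH hy hyH
    constructor
    · rintro ⟨h1, h2⟩
      by_cases hyM : y ∈ M
      · exact absurd (hout y (mem_seers.mpr ⟨hy, hyM, h2 ▸ fc_sees hxy hx h1⟩)) hyH
      · exact ⟨hyM, (hlab x y hxy h1 hyM) ▸ h2⟩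
    · rintro ⟨h1, h2⟩
      by_cases hxM : x ∈ M
      · exact absurd (hout x (mem_seers.mpr ⟨hx, hxM, h2 ▸ fc_sees hxy.symm hy h1⟩)) hxH
      · exact ⟨hxM, (hlab x y hxy hxM h1) ▸ h2⟩
  obtain ⟨w, hw⟩ : (seers L M lab H b).Nonempty := Finset.card_pos.mp (by omega)
  obtain ⟨hwH, hwM, i, hi, -, hib⟩ := mem_seers.mp hw
  obtain ⟨m, hmF, hmH, -, hm, hmH'⟩ := hS.face.exists_out hH hHF hwH
  have hne : ¬ (L.nb w m ∈ {x | x ∉ M ∧ lab x = b}) := by
    rintro ⟨-, h⟩
    have : i = m := hS.inj w hwM (hHF hwH) i (mem_dir.mpr (hHF (mem_dir.mp hi))) m hm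
      (hib.trans h.symm)
    exact hmH' (this ▸ hi)
  obtain ⟨m', hmF', hmH2, -, hm', -⟩ := hS.face.exists_out hH hHF hxH
  have hadj := L.adj_nb x m'
  by_cases hyM : L.nb x m' ∈ M
  · exact hmH2 (hout _ (mem_seers.mpr ⟨hmF', hyM, hxb ▸ fc_sees hadj (hHF hxH) hxM⟩))
  · have h1 : L.nb x m' ∈ {x | x ∉ M ∧ lab x = b} :=
      ⟨hyM, (hlab _ _ hadj hxM hyM) ▸ hxb⟩
    exact hne ((hS.face.compl hH hHF _ hclosed hmF hmH hmF' hmH2).mpr h1)

variable [Fintype V]

theorem Str.facet {L : FaceData G d} {M : Finset V} {lab : V → Λ} {k : ℕ} {F H : Finset V}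
    (hlab : ∀ x y, G.Adj x y → x ∉ M → y ∉ M → lab x = lab y)
    (hS : Str L M lab (k + 1) F) (hH : IsFace L k H) (hHF : H ⊆ F) (hk : 1 ≤ k)
    (hne : (inner M H).Nonempty) :
    (inner M H).card ≤ (labs M lab H).card ∧
      (inner M H).card + (labs M lab H).card ≤ (inner M F).card ∧
      (2 ≤ k → 2 ≤ (inner M H).card) := by
  classical
  refine ⟨?_, ?_, ?_⟩
  · -- double counting
    have h1 : ∀ w ∈ inner M H, ((labs M lab H).filter fun b => Sees L M lab H w b).card = k := by
      intro w hw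
      obtain ⟨hwH, hwM⟩ := mem_inner.mp hw
      have hcd := hH.card_dir hwH
      have himg : ((labs M lab H).filter fun b => Sees L M lab H w b) =
          (dir L H w).image fun i => lab (L.nb w i) := by
        ext b
        simp only [Finset.mem_filter, Finset.mem_image]
        constructor
        · rintro ⟨-, i, hi, -, hib⟩
          exact ⟨i, hi, hib⟩
        · rintro ⟨i, hi, hib⟩
          have hiM : L.nb w i ∉ M :=
            hS.notMem w hwM (hHF hwH) i (mem_dir.mpr (hHF (mem_dir.mp hi)))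
          exact ⟨mem_labs.mpr ⟨L.nb w i, mem_dir.mp hi, hiM, hib⟩, i, hi, hiM, hib⟩
      rw [himg, Finset.card_image_of_injOn, hcd]
      intro i hi j hj hij
      exact hS.inj w hwM (hHF hwH) i (mem_dir.mpr (hHF (mem_dir.mp hi))) j
        (mem_dir.mpr (hHF (mem_dir.mp hj))) hij
    have h2 : ∀ b ∈ labs M lab H, ((inner M H).filter fun w => Sees L M lab H w b).card ≤ k := by
      intro b hb
      refine le_trans (le_of_eq ?_) (fc_card_seers hlab hS hH hHF hb)
      congr 1
      ext w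
      rw [Finset.mem_filter, mem_inner, mem_seers]
      tauto
    have h3 : (inner M H).card * k ≤ (labs M lab H).card * k := by
      calc (inner M H).card * k
          = ∑ w ∈ inner M H, ((labs M lab H).filter fun b => Sees L M lab H w b).card := by
            rw [Finset.sum_congr rfl h1, Finset.sum_const, smul_eq_mul]
        _ = ∑ b ∈ labs M lab H, ((inner M H).filter fun w => Sees L M lab H w b).card := by
            simp only [Finset.card_filter]
            exact Finset.sum_comm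
        _ ≤ ∑ _b ∈ labs M lab H, k := Finset.sum_le_sum h2
        _ = (labs M lab H).card * k := by rw [Finset.sum_const, smul_eq_mul]
    exact Nat.le_of_mul_le_mul_right h3 (by omega)
  · -- the labels of the edges leaving `H`
    have hex : ∀ w, w ∈ inner M H → ∃ l, l ∈ dir L F w ∧ l ∉ dir L H w := by
      intro w hw
      obtain ⟨hwH, hwM⟩ := mem_inner.mp hw
      obtain ⟨m, -, -, -, hm, hm'⟩ := hS.face.exists_out hH hHF hwH
      exact ⟨m, hm, hm'⟩
    have : Nonempty (Fin d) := by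
      obtain ⟨w, hw⟩ := hne
      obtain ⟨l, -⟩ := hex w hw
      exact ⟨l⟩
    choose! l hl using hex
    have hinj : Set.InjOn (fun w => lab (L.nb w (l w))) (inner M H : Set V) := by
      intro w1 hw1 w2 hw2 h12
      simp only [Finset.mem_coe] at hw1 hw2
      obtain ⟨hw1H, hw1M⟩ := mem_inner.mp hw1
      obtain ⟨hw2H, hw2M⟩ := mem_inner.mp hw2
      by_contra hne12
      have hsee : w2 ∈ seers L M lab F (lab (L.nb w1 (l w1))) := by
        refine mem_seers.mpr ⟨hHF hw2H, hw2M, l w2, (hl w2 hw2).1, ?_, h12.symm⟩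
        exact hS.notMem w2 hw2M (hHF hw2H) _ (hl w2 hw2).1
      obtain ⟨j, -, -, hj⟩ := hS.uniq w1 hw1M (hHF hw1H) (l w1) (hl w1 hw1).1 w2 hsee
        (fun h => hne12 h.symm)
      have h3 := hH.supp_subset hw1H hw2H
      rw [hj] at h3
      exact (hl w1 hw1).2 (h3 (Finset.mem_insert_self _ _))
    have hdisj : Disjoint ((inner M H).image fun w => lab (L.nb w (l w))) (labs M lab H) := by
      rw [Finset.disjoint_left]
      intro b hb
      obtain ⟨w, hw, rfl⟩ := Finset.mem_image.mp hb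
      obtain ⟨hwH, hwM⟩ := mem_inner.mp hw
      exact fc_out_notMem hlab hS hH hHF hk hwH hwM (hl w hw).1 (hl w hw).2
    have hsub : ((inner M H).image fun w => lab (L.nb w (l w))) ∪ labs M lab H ⊆
        labs M lab F := by
      intro b hb
      rcases Finset.mem_union.mp hb with hb | hb
      · obtain ⟨w, hw, rfl⟩ := Finset.mem_image.mp hb
        obtain ⟨hwH, hwM⟩ := mem_inner.mp hw
        exact mem_labs.mpr ⟨_, mem_dir.mp (hl w hw).1,
          hS.notMem w hwM (hHF hwH) _ (hl w hw).1, rfl⟩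
      · obtain ⟨x, hx, hxM, hxb⟩ := mem_labs.mp hb
        exact mem_labs.mpr ⟨x, hHF hx, hxM, hxb⟩
    have := Finset.card_le_card hsub
    rw [Finset.card_union_of_disjoint hdisj, Finset.card_image_of_injOn hinj,
      hS.card_eq] at this
    exact this
  · intro hk2
    obtain ⟨w, hw⟩ := hne
    obtain ⟨hwH, hwM⟩ := mem_inner.mp hw
    have hcd := hH.card_dir hwH
    obtain ⟨i, hi, j, hj, hij⟩ := Finset.one_lt_card.mp (by omega : 1 < (dir L H w).card)
    obtain ⟨w', hw', hsup⟩ := hS.pair w hwM (hHF hwH) i (mem_dir.mpr (hHF (mem_dir.mp hi))) j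
      (mem_dir.mpr (hHF (mem_dir.mp hj))) hij
    have hw'H : w' ∈ H := by
      rw [hH.mem_iff hwH, hsup]
      intro x hx
      rcases Finset.mem_insert.mp hx with rfl | hx
      · exact hi
      · rw [Finset.mem_singleton.mp hx]
        exact hj
    have hne' : w ≠ w' := by
      rintro rfl
      rw [L.supp_self] at hsup
      exact absurd (hsup ▸ Finset.mem_insert_self i {j} : i ∈ (∅ : Finset (Fin d)))
        (Finset.notMem_empty i)
    exact Finset.one_lt_card.mpr
      ⟨w, hw, w', mem_inner.mpr ⟨hw'H, (mem_seers.mp hw').2.1⟩, hne'⟩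

theorem Tight.two_pow_le {L : FaceData G d} {M : Finset V} {lab : V → Λ}
    (hlab : ∀ x y, G.Adj x y → x ∉ M → y ∉ M → lab x = lab y)
    (hstr : ∀ k F, Tight L M lab k F → Str L M lab k F) {k : ℕ} {F : Finset V}
    (hT : Tight L M lab k F) : 2 ^ k ≤ 2 * (inner M F).card := by
  classical
  induction k generalizing F with
  | zero =>
    have := hT.2.1
    simp only [pow_zero]
    omega
  | succ k ih =>
    have h2 := hT.2.1
    rcases Nat.lt_or_ge k 2 with hk | hk
    · have : 2 ^ (k + 1) ≤ 2 ^ 2 := Nat.pow_le_pow_right (by norm_num) (by omega)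
      omega
    · have hS := hstr _ _ hT
      obtain ⟨w, hw⟩ : (inner M F).Nonempty := Finset.card_pos.mp (by omega)
      obtain ⟨hwF, hwM⟩ := mem_inner.mp hw
      have hcd := hT.1.card_dir hwF
      obtain ⟨l, hl⟩ : (dir L F w).Nonempty := Finset.card_pos.mp (by omega)
      obtain ⟨hH, hHF⟩ := hT.1.facetOf hwF hl
      have hne : (inner M (faceOf L w ((dir L F w).erase l))).Nonempty :=
        ⟨w, mem_inner.mpr ⟨self_mem_faceOf, hwM⟩⟩
      obtain ⟨h3, h4, h5⟩ := hS.facet hlab hH hHF (by omega) hne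
      have h6 := ih (F := faceOf L w ((dir L F w).erase l)) ⟨hH, h5 hk, h3⟩
      rw [pow_succ]
      omega

end Pool.Agent.Helper82.TotSep
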