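import Mathlib
import Pool.Agent.Helper82.TotSep.Str

/-!
# The facets of the fat nodes over a 2-face
-/

namespace Pool.Agent.Helper82.TotSep

open Finset

variable {V : Type*} {G : SimpleGraph V} {d : ℕ} {Λ : Type*}

/-- No set of nodes of an oriented polygon has entering edges only. -/
lemma lc_flow {L : FaceData G d} {Q Z : Finset V} (hQ : IsFace L 2 Q) {o : V → V → Prop}
    (h1 : ∀ x y, G.Adj x y → x ∈ Q → y ∈ Q → (o x y ↔ ¬ o y x))
    (h2 : ∀ x y z, G.Adj x y → G.Adj x z → y ≠ z → x ∈ Q → y ∈ Q → z ∈ Q → (o x y ↔ ¬ o x z))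
    (hZ : Z ⊆ Q) (hb : ∀ z ∈ Z, ∀ y ∈ Q, y ∉ Z → G.Adj z y → o y z) {w z : V}
    (hw : w ∈ Q) (hwZ : w ∉ Z) (hz : z ∈ Z) (hwz : G.Adj w z) (ho : o w z) : False := by
  classical
  have hout : ∀ x, x ∈ Q → ∃ y, y ∈ Q ∧ G.Adj x y ∧ o x y := by
    intro x hx
    obtain ⟨p, q, hpq, hd⟩ := Finset.card_eq_two.mp (hQ.card_dir hx)
    have hp : L.nb x p ∈ Q := mem_dir.mp (by rw [hd]; simp)
    have hq : L.nb x q ∈ Q := mem_dir.mp (by rw [hd]; simp)
    have hne : L.nb x p ≠ L.nb x q := fun h => hpq (L.nb_injective x h)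
    have h3 := h2 x _ _ (L.adj_nb x p) (L.adj_nb x q) hne hx hp hq
    by_cases h4 : o x (L.nb x p)
    · exact ⟨_, hp, L.adj_nb x p, h4⟩
    · refine ⟨_, hq, L.adj_nb x q, ?_⟩
      by_contra h5
      exact h4 (h3.mpr h5)
  choose! f hf using hout
  have hinj : ∀ x ∈ Q, ∀ y ∈ Q, f x = f y → x = y := by
    intro x hx y hy hxy
    by_contra hne
    have hx' := hf x hx
    have hy' := hf y hy
    rw [← hxy] at hy'
    have e1 := h1 x (f x) hx'.2.1 hx hx'.1
    have e2 := h1 y (f x) hy'.2.1 hy hy'.1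
    have e3 := h2 (f x) x y hx'.2.1.symm hy'.2.1.symm hne hx'.1 hx hy
    have e4 := e1.mp hx'.2.2
    have e5 := e2.mp hy'.2.2
    exact e4 (e3.mpr e5)
  have hmap : ∀ x ∈ Z, f x ∈ Z := by
    intro x hx
    by_contra hne
    have hx' := hf x (hZ hx)
    exact (h1 x (f x) hx'.2.1 (hZ hx) hx'.1).mp hx'.2.2 (hb x hx (f x) hx'.1 hne hx'.2.1)
  have himg : Z.image f = Z := by
    refine Finset.eq_of_subset_of_card_le ?_ ?_
    · intro y hy
      obtain ⟨x, hx, rfl⟩ := Finset.mem_image.mp hy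
      exact hmap x hx
    · rw [Finset.card_image_of_injOn]
      intro x hx y hy hxy
      exact hinj x (hZ hx) y (hZ hy) hxy
  have hfw : f w = z := by
    by_contra hne
    have hw' := hf w hw
    exact (h2 w (f w) z hw'.2.1 hwz hne hw hw'.1 (hZ hz)).mp hw'.2.2 ho
  rw [← himg] at hz
  obtain ⟨x, hx, hxz⟩ := Finset.mem_image.mp hz
  exact hwZ (hinj x (hZ hx) w hw (hxz.trans hfw.symm) ▸ hx)

variable [Fintype V]

/-- The intersection of a facet with a 2-face. -/
lemma lc_inter {L : FaceData G d} {k : ℕ} {F Q : Finset V} (hF : IsFace L (k + 1) F)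
    (hQ : IsFace L 2 Q) {w y : V} (hwQ : w ∈ Q) {i j : Fin d}
    (hdQ : dir L Q w = {i, j}) (hyQ : y ∈ Q)
    (hyH : y ∈ faceOf L w ((dir L F w).erase j)) : y = w ∨ y = L.nb w i := by
  have h1 := hQ.supp_subset hwQ hyQ
  rw [hdQ] at h1
  rw [mem_faceOf] at hyH
  have h2 : L.supp w y ⊆ {i} := by
    intro l hl
    have h3 := h1 hl
    have h4 := hyH hl
    rw [Finset.mem_erase] at h4
    simp only [Finset.mem_insert, Finset.mem_singleton] at h3 ⊢
    rcases h3 with h3 | h3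
    · exact h3
    · exact absurd h3 h4.1
  rcases Finset.subset_singleton_iff.mp h2 with h3 | h3
  · exact Or.inl (L.eq_self w y h3)
  · exact Or.inr (L.eq_nb w y i h3)

/-- The facets of `F` through `w` which do not contain the 2-face `Q`. -/
lemma lc_facet {L : FaceData G d} {k : ℕ} {F Q H : Finset V} (hF : IsFace L (k + 1) F)
    (hQ : IsFace L 2 Q) (hQF : Q ⊆ F) (hH : IsFace L k H) (hHF : H ⊆ F) {w : V} (hwQ : w ∈ Q)
    (hwH : w ∈ H) : ∃ l, l ∈ dir L F w ∧ H = faceOf L w ((dir L F w).erase l) ∧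
      (Q ⊆ H ↔ l ∉ dir L Q w) := by
  obtain ⟨l, _, _, h3, h4, _⟩ := hF.exists_out hH hHF hwH
  refine ⟨l, h4, ?_, ?_⟩
  · rw [← h3]
    exact hH.eq_faceOf hwH
  · constructor
    · intro hQH hl
      have h6 : l ∈ dir L H w := mem_dir.mpr (hQH (mem_dir.mp hl))
      rw [h3] at h6
      exact (Finset.mem_erase.mp h6).1 rfl
    · intro hl x hx
      rw [hH.mem_iff hwH, h3]
      intro i hi
      have h7 := hQ.supp_subset hwQ hx hi
      exact Finset.mem_erase.mpr ⟨fun h => hl (h ▸ h7), mem_dir.mpr (hQF (mem_dir.mp h7))⟩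

/-- The fat facets depend only on the label. -/
lemma lc_fat_congr {L : FaceData G d} {M : Finset V} {lab : V → Λ} {k : ℕ} {F : Finset V}
    {x y : V} (hx : x ∉ M) (hy : y ∉ M) (h : lab x = lab y) :
    fat L M lab k F x = fat L M lab k F y := by
  ext H
  rw [mem_fat, mem_fat, h]
  simp [hx, hy]

open Classical in
theorem Str.local_trivial {L : FaceData G d} {M : Finset V} {lab : V → Λ} {k : ℕ}
    {F Q : Finset V} (hlab : ∀ x y, G.Adj x y → x ∉ M → y ∉ M → lab x = lab y)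
    (hS : Str L M lab (k + 1) F) (hk : 1 ≤ k)
    (hcard : ∀ x ∈ F, (fat L M lab k F x).card = k + 1)
    (hint : ∀ w ∈ M, w ∈ F → ∀ i ∈ dir L F w,
      (∀ H ∈ fat L M lab k F (L.nb w i), w ∈ H → L.nb w i ∈ H) ∧
      ((fat L M lab k F (L.nb w i)).filter fun H => w ∈ H).card = k)
    (hQ : IsFace L 2 Q) (hQF : Q ⊆ F) :
    ∃ (τ : Finset V → Finset V ⊕ Bool) (T : Finset (Finset V ⊕ Bool)), T.card = k + 1 ∧
      ∀ x ∈ Q, (∀ H ∈ fat L M lab k F x, τ H ∈ T) ∧
        Set.InjOn τ (fat L M lab k F x : Set (Finset V)) := by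
  by_cases hM : ∃ w, w ∈ Q ∧ w ∈ M
  swap
  · -- no node of `M` in `Q`
    have hM' : ∀ w ∈ Q, w ∉ M := fun w hw hwM => hM ⟨w, hw, hwM⟩
    obtain ⟨x0, hx0⟩ := hQ.nonempty
    have hl : ∀ x ∈ Q, lab x = lab x0 := by
      intro x hx
      have h1 := hQ.conn (∅ : Finset V) {y | lab y = lab x0} (by simp)
        (fun y z hyz hy hz _ _ => by
          have h2 := hlab y z hyz (hM' y hy) (hM' z hz)
          simp only [Set.mem_setOf_eq]
          rw [h2]) hx hx0 (by simp) (by simp)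
      exact h1.mpr rfl
    refine ⟨Sum.inl, (fat L M lab k F x0).image Sum.inl, ?_, ?_⟩
    · rw [Finset.card_image_of_injective _ Sum.inl_injective]
      exact hcard x0 (hQF hx0)
    · intro x hx
      refine ⟨?_, Sum.inl_injective.injOn⟩
      intro H hH
      rw [lc_fat_congr (hM' x hx) (hM' x0 hx0) (hl x hx)] at hH
      exact Finset.mem_image_of_mem _ hH
  obtain ⟨w0, hw0Q, hw0M⟩ := hM
  have hF := hS.face
  obtain ⟨p0, q0, hpq0, hd0⟩ := Finset.card_eq_two.mp (hQ.card_dir hw0Q)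
  obtain ⟨o, ho1, ho2⟩ := L.ori w0 p0 q0 hpq0
  have hmQ : ∀ x, x ∈ Q → L.supp w0 x ⊆ {p0, q0} := by
    intro x hx
    rw [← hd0]
    exact hQ.supp_subset hw0Q hx
  have h1 : ∀ x y, G.Adj x y → x ∈ Q → y ∈ Q → (o x y ↔ ¬ o y x) :=
    fun x y hxy hx hy => ho1 x y hxy (hmQ x hx) (hmQ y hy)
  have h2 : ∀ x y z, G.Adj x y → G.Adj x z → y ≠ z → x ∈ Q → y ∈ Q → z ∈ Q →
      (o x y ↔ ¬ o x z) :=
    fun x y z hxy hxz hyz hx hy hz => ho2 x y z hxy hxz hyz (hmQ x hx) (hmQ y hy) (hmQ z hz)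
  clear ho1 ho2
  set typ : Finset V → Prop := fun H => ∃ w ∈ M, w ∈ Q ∧ w ∈ H ∧
    ∃ y, y ∈ Q ∧ y ∈ H ∧ G.Adj w y ∧ y ∉ M ∧ o w y with htyp
  -- the type of a facet which meets `Q` in an edge at `w`
  have htype : ∀ w ∈ M, w ∈ Q → ∀ i j : Fin d, i ≠ j → dir L Q w = {i, j} →
      (typ (faceOf L w ((dir L F w).erase j)) ↔ o w (L.nb w i)) := by
    intro w hwM hwQ i j hij hdQ
    have hiQ : i ∈ dir L Q w := by rw [hdQ]; simp
    have hiF : i ∈ dir L F w := mem_dir.mpr (hQF (mem_dir.mp hiQ))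
    have hnM := hS.notMem w hwM (hQF hwQ) i hiF
    constructor
    · rintro ⟨w', hw'M, hw'Q, hw'H, y, hyQ, hyH, hadj, hyM, hoy⟩
      have e1 := lc_inter hF hQ hwQ hdQ hw'Q hw'H
      have e2 := lc_inter hF hQ hwQ hdQ hyQ hyH
      have e3 : w' = w := by
        rcases e1 with e1 | e1
        · exact e1
        · exact absurd (e1 ▸ hw'M) hnM
      have e4 : y = L.nb w i := by
        rcases e2 with e2 | e2
        · exact absurd (e2 ▸ hwM) hyM
        · exact e2
      rw [e3, e4] at hoy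
      exact hoy
    · intro ho
      refine ⟨w, hwM, hwQ, self_mem_faceOf, L.nb w i, mem_dir.mp hiQ, ?_, L.adj_nb w i, hnM, ho⟩
      rw [mem_faceOf, L.supp_nb, Finset.singleton_subset_iff]
      exact Finset.mem_erase.mpr ⟨hij, hiF⟩
  refine ⟨fun H => if Q ⊆ H then Sum.inl H else Sum.inr (decide (typ H)),
    ((facets L k F).filter fun H => Q ⊆ H).image Sum.inl ∪ {Sum.inr true, Sum.inr false}, ?_, ?_⟩
  · -- the number of facets containing `Q`
    rw [Finset.card_union_of_disjoint, Finset.card_image_of_injective _ Sum.inl_injective]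
    · have e1 : ((facets L k F).filter fun H => Q ⊆ H) =
          (dir L F w0 \ dir L Q w0).image (fun l => faceOf L w0 ((dir L F w0).erase l)) := by
        ext H
        rw [Finset.mem_filter, mem_facets, Finset.mem_image]
        constructor
        · rintro ⟨⟨hHF, hH⟩, hQH⟩
          obtain ⟨l, hl, hHl, hiff⟩ := lc_facet hF hQ hQF hH hHF hw0Q (hQH hw0Q)
          exact ⟨l, Finset.mem_sdiff.mpr ⟨hl, hiff.mp hQH⟩, hHl.symm⟩
        · rintro ⟨l, hl, rfl⟩
          rw [Finset.mem_sdiff] at hl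
          obtain ⟨hf1, hf2⟩ := hF.facetOf (hQF hw0Q) hl.1
          refine ⟨⟨hf2, hf1⟩, ?_⟩
          intro x hx
          rw [mem_faceOf]
          intro i hi
          have h7 := hQ.supp_subset hw0Q hx hi
          exact Finset.mem_erase.mpr ⟨fun h => hl.2 (h ▸ h7), mem_dir.mpr (hQF (mem_dir.mp h7))⟩
      have hsub : dir L Q w0 ⊆ dir L F w0 := fun i hi => mem_dir.mpr (hQF (mem_dir.mp hi))
      rw [e1, Finset.card_image_of_injOn, Finset.card_sdiff_of_subset hsub,
        hF.card_dir (hQF hw0Q), hQ.card_dir hw0Q]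
      · have : ({Sum.inr true, Sum.inr false} : Finset (Finset V ⊕ Bool)).card = 2 := by
          rw [Finset.card_pair]
          simp
        rw [this]
        omega
      · intro l hl l' hl' hll
        have hl1 := (Finset.mem_sdiff.mp hl).1
        have hl1' := (Finset.mem_sdiff.mp hl').1
        have e2 : (dir L F w0).erase l = (dir L F w0).erase l' := by
          have := congrArg (fun H => dir L H w0) hll
          simpa [dir_faceOf] using this
        by_contra hne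
        have e3 : l ∈ (dir L F w0).erase l' := Finset.mem_erase.mpr ⟨hne, hl1⟩
        rw [← e2] at e3
        exact (Finset.mem_erase.mp e3).1 rfl
    · rw [Finset.disjoint_left]
      intro a ha hb
      obtain ⟨H, _, rfl⟩ := Finset.mem_image.mp ha
      simp at hb
  intro x hx
  refine ⟨?_, ?_⟩
  · intro H hH
    rw [mem_fat] at hH
    by_cases hQH : Q ⊆ H
    · simp only [hQH, if_true]
      exact Finset.mem_union_left _ (Finset.mem_image_of_mem _
        (Finset.mem_filter.mpr ⟨hH.1, hQH⟩))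
    · simp only [hQH, if_false]
      apply Finset.mem_union_right
      by_cases ht : typ H <;> simp [ht]
  -- reduction to the facets which do not contain `Q`
  suffices hmain : ∀ H ∈ fat L M lab k F x, ¬ Q ⊆ H → ∀ H' ∈ fat L M lab k F x, ¬ Q ⊆ H' →
      (typ H ↔ typ H') → H = H' by
    intro H hH H' hH' hτ
    simp only at hτ
    by_cases hQH : Q ⊆ H
    · by_cases hQH' : Q ⊆ H'
      · rw [if_pos hQH, if_pos hQH'] at hτ
        exact Sum.inl_injective hτ
      · rw [if_pos hQH, if_neg hQH'] at hτ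
        simp at hτ
    · by_cases hQH' : Q ⊆ H'
      · rw [if_neg hQH, if_pos hQH'] at hτ
        simp at hτ
      · rw [if_neg hQH, if_neg hQH'] at hτ
        have e1 := Sum.inr_injective hτ
        exact hmain H hH hQH H' hH' hQH' (decide_eq_decide.mp e1)
  by_cases hxM : x ∈ M
  · -- a node of `M`
    obtain ⟨p, q, hpq, hd⟩ := Finset.card_eq_two.mp (hQ.card_dir hx)
    have hd' : dir L Q x = {q, p} := by rw [hd, Finset.pair_comm]
    have tp := htype x hxM hx p q hpq hd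
    have tq := htype x hxM hx q p hpq.symm hd'
    have hp : L.nb x p ∈ Q := mem_dir.mp (by rw [hd]; simp)
    have hq : L.nb x q ∈ Q := mem_dir.mp (by rw [hd]; simp)
    have hne : L.nb x p ≠ L.nb x q := fun h => hpq (L.nb_injective x h)
    have hor := h2 x _ _ (L.adj_nb x p) (L.adj_nb x q) hne hx hp hq
    have key : ∀ H ∈ fat L M lab k F x, ¬ Q ⊆ H →
        H = faceOf L x ((dir L F x).erase q) ∨ H = faceOf L x ((dir L F x).erase p) := by
      intro H hH hQH
      rw [mem_fat, mem_facets] at hH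
      have hxH : x ∈ H := by
        rcases hH.2 with h | h
        · exact h.2
        · exact absurd hxM h.1
      obtain ⟨l, hl, hHl, hiff⟩ := lc_facet hF hQ hQF hH.1.2 hH.1.1 hx hxH
      have hlQ : l ∈ dir L Q x := by
        by_contra h
        exact hQH (hiff.mpr h)
      rw [hd] at hlQ
      simp only [Finset.mem_insert, Finset.mem_singleton] at hlQ
      rcases hlQ with h | h
      · right; rw [← h]; exact hHl
      · left; rw [← h]; exact hHl
    intro H hH hQH H' hH' hQH' ht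
    rcases key H hH hQH with h | h <;> rcases key H' hH' hQH' with h' | h'
    · rw [h, h']
    · exfalso
      rw [h, h', tp, tq] at ht
      tauto
    · exfalso
      rw [h, h', tp, tq] at ht
      tauto
    · rw [h, h']
  -- another node
  -- a node of `M` in `Q` which sees the label
  have hex : ∃ w1 i1, w1 ∈ M ∧ w1 ∈ Q ∧ i1 ∈ dir L Q w1 ∧ lab (L.nb w1 i1) = lab x := by
    by_contra hcon
    have hcl : ∀ y z, G.Adj y z → y ∈ Q → z ∈ Q → (y ∉ M ∧ lab y = lab x) →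
        (z ∉ M ∧ lab z = lab x) := by
      intro y z hyz hy hz hyC
      have hzM : z ∉ M := by
        intro hzM
        obtain ⟨i, hi⟩ := L.nb_surj z y hyz.symm
        refine hcon ⟨z, i, hzM, hz, mem_dir.mpr (by rw [hi]; exact hy), ?_⟩
        rw [hi]
        exact hyC.2
      exact ⟨hzM, (hlab y z hyz hyC.1 hzM).symm.trans hyC.2⟩
    have h3 := hQ.conn (∅ : Finset V) {y | y ∉ M ∧ lab y = lab x} (by simp)
      (fun y z hyz hy hz _ _ => ⟨hcl y z hyz hy hz, hcl z y hyz.symm hz hy⟩) hx hw0Q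
      (by simp) (by simp)
    exact (h3.mp ⟨hxM, rfl⟩).1 hw0M
  obtain ⟨w1, i1, hw1M, hw1Q, hi1Q, hlab1⟩ := hex
  have hi1F : i1 ∈ dir L F w1 := mem_dir.mpr (hQF (mem_dir.mp hi1Q))
  have hz1M := hS.notMem w1 hw1M (hQF hw1Q) i1 hi1F
  obtain ⟨j1, hj1Q, hij1, hd1⟩ : ∃ j1, j1 ∈ dir L Q w1 ∧ i1 ≠ j1 ∧ dir L Q w1 = {i1, j1} := by
    obtain ⟨p, q, hpq, hd⟩ := Finset.card_eq_two.mp (hQ.card_dir hw1Q)
    have h3 := hi1Q
    rw [hd] at h3
    simp only [Finset.mem_insert, Finset.mem_singleton] at h3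
    rcases h3 with h3 | h3
    · exact ⟨q, by rw [hd]; simp, by rw [h3]; exact hpq, by rw [h3]; exact hd⟩
    · exact ⟨p, by rw [hd]; simp, by rw [h3]; exact hpq.symm, by
        rw [h3, Finset.pair_comm]; exact hd⟩
  have hj1F : j1 ∈ dir L F w1 := mem_dir.mpr (hQF (mem_dir.mp hj1Q))
  obtain ⟨w2, hw2s, hsupp12⟩ := hS.pair w1 hw1M (hQF hw1Q) i1 hi1F j1 hj1F hij1
  have hw2s' := mem_seers.mp hw2s
  obtain ⟨hw2F, hw2M, i2, hi2F, hz2M, hlab2'⟩ := hw2s'
  have hlab2 : lab (L.nb w2 i2) = lab x := hlab2'.trans hlab1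
  have hw2Q : w2 ∈ Q := by
    rw [hQ.mem_iff hw1Q, hsupp12, hd1]
  have hw12 : w1 ≠ w2 := by
    intro h
    rw [← h, L.supp_self] at hsupp12
    have : i1 ∈ (∅ : Finset (Fin d)) := by rw [hsupp12]; simp
    simp at this
  have hw1s : w1 ∈ seers L M lab F (lab (L.nb w2 i2)) :=
    mem_seers.mpr ⟨hQF hw1Q, hw1M, i1, hi1F, hz1M, hlab1.trans hlab2.symm⟩
  obtain ⟨j2, hj2F, hij2, hsupp21⟩ := hS.uniq w2 hw2M hw2F i2 hi2F w1 hw1s hw12
  have hs2 : ({i2, j2} : Finset (Fin d)) ⊆ dir L Q w2 := by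
    rw [← hsupp21]
    exact hQ.supp_subset hw2Q hw1Q
  have hd2 : dir L Q w2 = {i2, j2} := by
    refine (Finset.eq_of_subset_of_card_le hs2 ?_).symm
    rw [hQ.card_dir hw2Q, Finset.card_pair hij2.symm]
  have hi2Q : i2 ∈ dir L Q w2 := hs2 (by simp)
  -- there are no other nodes of `M` in `Q` which see the label
  have huniq : ∀ w ∈ M, w ∈ Q → ∀ i ∈ dir L Q w, lab (L.nb w i) = lab x → w = w1 ∨ w = w2 := by
    intro w hwM hwQ i hi hl
    by_cases hww : w = w1
    · exact Or.inl hww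
    · right
      have hiF : i ∈ dir L F w := mem_dir.mpr (hQF (mem_dir.mp hi))
      have hws : w ∈ seers L M lab F (lab (L.nb w1 i1)) :=
        mem_seers.mpr ⟨hQF hwQ, hwM, i, hiF, hS.notMem w hwM (hQF hwQ) i hiF, hl.trans hlab1.symm⟩
      obtain ⟨j, hj, hji, hsw⟩ := hS.uniq w1 hw1M (hQF hw1Q) i1 hi1F w hws hww
      have h3 := hQ.supp_subset hw1Q hwQ
      rw [hsw, hd1] at h3
      have h4 : j ∈ ({i1, j1} : Finset (Fin d)) := h3 (by simp)
      simp only [Finset.mem_insert, Finset.mem_singleton] at h4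
      have h5 : j = j1 := by
        rcases h4 with h4 | h4
        · exact absurd h4 hji
        · exact h4
      rw [h5] at hsw
      exact hS.uniq' w1 hw1M (hQF hw1Q) i1 hi1F w hws w2 hw2s (hsw.trans hsupp12.symm)
  -- the edges between the label and `M` in `Q`
  set Z : Finset V := Q.filter fun z => z ∉ M ∧ lab z = lab x with hZdef
  have hZQ : Z ⊆ Q := Finset.filter_subset _ _
  have hbd : ∀ z ∈ Z, ∀ y ∈ Q, y ∉ Z → G.Adj z y →
      (y = w1 ∧ z = L.nb w1 i1) ∨ (y = w2 ∧ z = L.nb w2 i2) := by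
    intro z hz y hy hyZ hzy
    rw [hZdef, Finset.mem_filter] at hz
    have hyM : y ∈ M := by
      by_contra hyM
      apply hyZ
      rw [hZdef, Finset.mem_filter]
      exact ⟨hy, hyM, (hlab z y hzy hz.2.1 hyM).symm.trans hz.2.2⟩
    obtain ⟨i, hi⟩ := L.nb_surj y z hzy.symm
    have hiQ : i ∈ dir L Q y := mem_dir.mpr (by rw [hi]; exact hz.1)
    have hiF : i ∈ dir L F y := mem_dir.mpr (hQF (mem_dir.mp hiQ))
    have hl : lab (L.nb y i) = lab x := by rw [hi]; exact hz.2.2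
    rcases huniq y hyM hy i hiQ hl with h | h
    · left
      refine ⟨h, ?_⟩
      subst h
      rw [hS.inj y hyM (hQF hy) i1 hi1F i hiF (hlab1.trans hl.symm), hi]
    · right
      refine ⟨h, ?_⟩
      subst h
      rw [hS.inj y hyM (hQF hy) i2 hi2F i hiF (hlab2.trans hl.symm), hi]
  have hz1Z : L.nb w1 i1 ∈ Z := by
    rw [hZdef, Finset.mem_filter]
    exact ⟨mem_dir.mp hi1Q, hz1M, hlab1⟩
  have hw1Z : w1 ∉ Z := by
    rw [hZdef, Finset.mem_filter]
    exact fun h => h.2.1 hw1M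
  have hnb : ¬ (o w1 (L.nb w1 i1) ∧ o w2 (L.nb w2 i2)) := by
    rintro ⟨ha, hb⟩
    refine lc_flow (Z := Z) hQ h1 h2 hZQ (fun z hz y hy hyZ hzy => ?_) hw1Q hw1Z hz1Z
      (L.adj_nb w1 i1) ha
    rcases hbd z hz y hy hyZ hzy with ⟨rfl, rfl⟩ | ⟨rfl, rfl⟩
    · exact ha
    · exact hb
  have hnb' : ¬ (¬ o w1 (L.nb w1 i1) ∧ ¬ o w2 (L.nb w2 i2)) := by
    rintro ⟨ha, hb⟩
    have hr1 : ∀ x y, G.Adj x y → x ∈ Q → y ∈ Q → (o y x ↔ ¬ o x y) :=
      fun x y hxy hx hy => h1 y x hxy.symm hy hx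
    have hr2 : ∀ x y z, G.Adj x y → G.Adj x z → y ≠ z → x ∈ Q → y ∈ Q → z ∈ Q →
        (o y x ↔ ¬ o z x) := by
      intro x y z hxy hxz hyz hx hy hz
      have e1 := h1 x y hxy hx hy
      have e2 := h1 x z hxz hx hz
      have e3 := h2 x y z hxy hxz hyz hx hy hz
      tauto
    have hz1Q := mem_dir.mp hi1Q
    have hz2Q := mem_dir.mp hi2Q
    have ha' : o (L.nb w1 i1) w1 := (hr1 w1 _ (L.adj_nb w1 i1) hw1Q hz1Q).mpr ha
    have hb' : o (L.nb w2 i2) w2 := (hr1 w2 _ (L.adj_nb w2 i2) hw2Q hz2Q).mpr hb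
    refine lc_flow (Z := Z) (o := fun x y => o y x) hQ hr1 hr2 hZQ
      (fun z hz y hy hyZ hzy => ?_) hw1Q hw1Z hz1Z (L.adj_nb w1 i1) ha'
    rcases hbd z hz y hy hyZ hzy with ⟨rfl, rfl⟩ | ⟨rfl, rfl⟩
    · exact ha'
    · exact hb'
  -- the two facets
  have hz1F := mem_dir.mp hi1F
  have hfat1 : fat L M lab k F (L.nb w1 i1) = fat L M lab k F x := lc_fat_congr hz1M hxM hlab1
  have hfat2 : fat L M lab k F (L.nb w2 i2) = fat L M lab k F x := lc_fat_congr hz2M hxM hlab2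
  have hint1 := hint w1 hw1M (hQF hw1Q) i1 hi1F
  have hint2 := hint w2 hw2M (hQF hw2Q) i2 hi2F
  rw [hfat1] at hint1
  rw [hfat2] at hint2
  have hcx := hcard x (hQF hx)
  have hone : ∀ w : V, ((fat L M lab k F x).filter fun H => w ∈ H).card = k →
      ∀ H ∈ fat L M lab k F x, w ∉ H → ∀ H' ∈ fat L M lab k F x, w ∉ H' → H = H' := by
    intro w hwk H hH hwH H' hH' hwH'
    have h3 := Finset.card_filter_add_card_filter_not (s := fat L M lab k F x) (fun H => w ∈ H)
    have h4 : ((fat L M lab k F x).filter fun H => ¬ w ∈ H).card = 1 := by omega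
    obtain ⟨K, hK⟩ := Finset.card_eq_one.mp h4
    have h5 : H ∈ ((fat L M lab k F x).filter fun H => ¬ w ∈ H) :=
      Finset.mem_filter.mpr ⟨hH, hwH⟩
    have h6 : H' ∈ ((fat L M lab k F x).filter fun H => ¬ w ∈ H) :=
      Finset.mem_filter.mpr ⟨hH', hwH'⟩
    rw [hK, Finset.mem_singleton] at h5 h6
    rw [h5, h6]
  have hj2Q : j2 ∈ dir L Q w2 := hs2 (by simp)
  -- membership of the two facets
  have hmem : ∀ w ∈ M, w ∈ Q → ∀ i j : Fin d, i ≠ j → dir L Q w = {i, j} →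
      lab (L.nb w i) = lab x → faceOf L w ((dir L F w).erase j) ∈ fat L M lab k F x := by
    intro w hwM hwQ i j hij hdw hl
    have hjF : j ∈ dir L F w := mem_dir.mpr (hQF (mem_dir.mp (by rw [hdw]; simp)))
    have hiF : i ∈ dir L F w := mem_dir.mpr (hQF (mem_dir.mp (by rw [hdw]; simp)))
    obtain ⟨hf1, hf2⟩ := hF.facetOf (hQF hwQ) hjF
    rw [mem_fat, mem_facets]
    refine ⟨⟨hf2, hf1⟩, Or.inr ⟨hxM, w, hwM, self_mem_faceOf, i, ?_,
      hS.notMem w hwM (hQF hwQ) i hiF, hl⟩⟩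
    rw [dir_faceOf]
    exact Finset.mem_erase.mpr ⟨hij, hiF⟩
  have hG1 := hmem w1 hw1M hw1Q i1 j1 hij1 hd1 hlab1
  have hG2 := hmem w2 hw2M hw2Q i2 j2 hij2.symm hd2 hlab2
  have hw2G1 : w2 ∉ faceOf L w1 ((dir L F w1).erase j1) := by
    rw [mem_faceOf, hsupp12]
    intro h
    exact (Finset.mem_erase.mp (h (by simp : j1 ∈ ({i1, j1} : Finset (Fin d))))).1 rfl
  have hw1G2 : w1 ∉ faceOf L w2 ((dir L F w2).erase j2) := by
    rw [mem_faceOf, hsupp21]
    intro h
    exact (Finset.mem_erase.mp (h (by simp : j2 ∈ ({i2, j2} : Finset (Fin d))))).1 rfl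
  have key : ∀ H ∈ fat L M lab k F x, ¬ Q ⊆ H →
      H = faceOf L w1 ((dir L F w1).erase j1) ∨ H = faceOf L w2 ((dir L F w2).erase j2) := by
    intro H hH hQH
    by_cases hw1H : w1 ∈ H
    · by_cases hw2H : w2 ∈ H
      · exfalso
        apply hQH
        have hH' := (mem_facets.mp (mem_fat.mp hH).1)
        have h3 : i1 ∈ dir L H w1 := mem_dir.mpr (hint1.1 H hH hw1H)
        have h4 := hH'.2.supp_subset hw1H hw2H
        rw [hsupp12, ← hd1] at h4
        intro y hy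
        rw [hH'.2.mem_iff hw1H]
        exact (hQ.supp_subset hw1Q hy).trans h4
      · left
        exact hone w2 hint2.2 H hH hw2H _ hG1 hw2G1
    · right
      exact hone w1 hint1.2 H hH hw1H _ hG2 hw1G2
  have t1 := htype w1 hw1M hw1Q i1 j1 hij1 hd1
  have t2 := htype w2 hw2M hw2Q i2 j2 hij2.symm hd2
  intro H hH hQH H' hH' hQH' ht
  rcases key H hH hQH with h | h <;> rcases key H' hH' hQH' with h' | h'
  · rw [h, h']
  · exfalso
    rw [h, h', t1, t2] at ht
    tauto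
  · exfalso
    rw [h, h', t1, t2] at ht
    tauto
  · rw [h, h']

end Pool.Agent.Helper82.TotSep
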