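import Mathlib
import Pool.Agent.Helper82.TotSep.Str

/-!
# Total separability (MP_3f7fac_co), piece SWEEP

Simple connectivity of a face by a sweep: colourings of the sets `D x` which agree along edges and
exist on every face of dimension two exist on the whole face.
-/

namespace Pool.Agent.Helper82.TotSep

open Finset

variable {V : Type*} [Fintype V] {G : SimpleGraph V} {d : ℕ}

/-- Two injective colourings with all colours which agree on all but one element agree. -/
lemma sw_adj {β γ : Type*} [DecidableEq β] {k : ℕ} {A B : Finset β} (hA : A.card = k + 1)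
    (hB : B.card = k + 1) (hAB : k ≤ (A ∩ B).card) {τ : β → γ} (hτA : Set.InjOn τ (A : Set β))
    (hτB : Set.InjOn τ (B : Set β)) {c c' : β → Fin (k + 1)} (hc : Set.InjOn c (A : Set β))
    (hc' : Set.InjOn c' (B : Set β)) (h : ∀ H ∈ A, H ∈ B → c H = c' H) :
    ∀ H ∈ A, ∀ H' ∈ B, τ H = τ H' → c H = c' H' := by
  intro H hH H' hH' hτ
  by_cases h1 : H ∈ B
  · have h2 : H = H' := hτB h1 hH' hτ
    subst h2
    exact h H hH h1
  by_cases h2 : H' ∈ A
  · have h3 : H = H' := hτA hH h2 hτ
    exact absurd (h3 ▸ hH') h1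
  -- the missing colour
  have hAc : A.image c = univ := by
    apply Finset.eq_univ_of_card
    rw [card_image_of_injOn hc, hA, Fintype.card_fin]
  have hBc : B.image c' = univ := by
    apply Finset.eq_univ_of_card
    rw [card_image_of_injOn hc', hB, Fintype.card_fin]
  have hHn : H ∉ A ∩ B := fun h3 => h1 (mem_inter.mp h3).2
  have hAe : insert H (A ∩ B) = A := by
    apply eq_of_subset_of_card_le
    · intro x hx
      rw [mem_insert] at hx
      rcases hx with rfl | hx
      · exact hH
      · exact (mem_inter.mp hx).1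
    · rw [card_insert_of_notMem hHn]
      omega
  have hHn' : H' ∉ A ∩ B := fun h3 => h2 (mem_inter.mp h3).1
  have hBe : insert H' (A ∩ B) = B := by
    apply eq_of_subset_of_card_le
    · intro x hx
      rw [mem_insert] at hx
      rcases hx with rfl | hx
      · exact hH'
      · exact (mem_inter.mp hx).2
    · rw [card_insert_of_notMem hHn']
      omega
  have h3 : c H ∈ B.image c' := by rw [hBc]; exact mem_univ _
  rw [mem_image] at h3
  obtain ⟨K, hK, hKe⟩ := h3
  rw [← hBe, mem_insert] at hK
  rcases hK with rfl | hK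
  · exact hKe.symm
  · exfalso
    have h4 := h K (mem_inter.mp hK).1 (mem_inter.mp hK).2
    rw [hKe] at h4
    have h5 : K = H := hc (mem_inter.mp hK).1 hH h4
    exact hHn (h5 ▸ hK)

/-- An injective colouring of all but one element extends. -/
lemma sw_ext {β : Type*} [DecidableEq β] {k : ℕ} {A B : Finset β} (hA : A.card = k + 1)
    (hAB : k ≤ (A ∩ B).card) {c : β → Fin (k + 1)} (hc : Set.InjOn c (B : Set β)) :
    ∃ c' : β → Fin (k + 1), Set.InjOn c' (A : Set β) ∧ ∀ H ∈ A, H ∈ B → c' H = c H := by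
  by_cases h : A ⊆ B
  · exact ⟨c, hc.mono (by exact_mod_cast h), fun H _ _ => rfl⟩
  · rw [not_subset] at h
    obtain ⟨H0, h0A, h0B⟩ := h
    have hn : H0 ∉ A ∩ B := fun h1 => h0B (mem_inter.mp h1).2
    have hAe : insert H0 (A ∩ B) = A := by
      apply eq_of_subset_of_card_le
      · intro x hx
        rw [mem_insert] at hx
        rcases hx with rfl | hx
        · exact h0A
        · exact (mem_inter.mp hx).1
      · rw [card_insert_of_notMem hn]
        omega
    have hcard : (A ∩ B).card = k := by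
      have h1 : (insert H0 (A ∩ B)).card = (A ∩ B).card + 1 := card_insert_of_notMem hn
      rw [hAe, hA] at h1
      omega
    obtain ⟨j, hj⟩ : ∃ j, j ∉ (A ∩ B).image c := by
      by_contra hcon
      push Not at hcon
      have h1 : (A ∩ B).image c = univ := eq_univ_iff_forall.mpr hcon
      have h2 := card_image_le (s := A ∩ B) (f := c)
      rw [h1, card_univ, Fintype.card_fin] at h2
      omega
    refine ⟨Function.update c H0 j, ?_, ?_⟩
    · intro x hx y hy hxy
      rw [← hAe, coe_insert] at hx hy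
      rcases hx with rfl | hx
      · rcases hy with rfl | hy
        · rfl
        · exfalso
          have hyne : y ≠ x := fun h1 => hn (h1 ▸ mem_coe.mp hy)
          rw [Function.update_self, Function.update_of_ne hyne] at hxy
          exact hj (mem_image.mpr ⟨y, mem_coe.mp hy, hxy.symm⟩)
      · have hxne : x ≠ H0 := fun h1 => hn (h1 ▸ mem_coe.mp hx)
        rcases hy with rfl | hy
        · exfalso
          rw [Function.update_self, Function.update_of_ne hxne] at hxy
          exact hj (mem_image.mpr ⟨x, mem_coe.mp hx, hxy⟩)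
        · have hyne : y ≠ H0 := fun h1 => hn (h1 ▸ mem_coe.mp hy)
          rw [Function.update_of_ne hxne, Function.update_of_ne hyne] at hxy
          exact hc (mem_inter.mp (mem_coe.mp hx)).2 (mem_inter.mp (mem_coe.mp hy)).2 hxy
    · intro H _ hHB
      have hne : H ≠ H0 := fun h1 => h0B (h1 ▸ hHB)
      rw [Function.update_of_ne hne]

/-- Some injective colouring. -/
lemma sw_inj {β : Type*} {k : ℕ} {A : Finset β} (hA : A.card = k + 1) :
    ∃ c' : β → Fin (k + 1), Set.InjOn c' (A : Set β) := by
  classical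
  let e := A.equivFinOfCardEq hA
  refine ⟨fun H => if h : H ∈ A then e ⟨H, h⟩ else 0, ?_⟩
  intro x hx y hy hxy
  have hx' : x ∈ A := mem_coe.mp hx
  have hy' : y ∈ A := mem_coe.mp hy
  simp only [dif_pos hx', dif_pos hy'] at hxy
  have := e.injective hxy
  exact congrArg Subtype.val this

/-- The values of `τ` on a set with as many elements as `T`. -/
lemma sw_surj {β γ : Type*} [DecidableEq γ] {k : ℕ} {A : Finset β} (hA : A.card = k + 1)
    {τ : β → γ} {T : Finset γ} (hT : T.card = k + 1) (hτ : ∀ H ∈ A, τ H ∈ T)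
    (hinj : Set.InjOn τ (A : Set β)) : ∀ g ∈ T, ∃ H ∈ A, τ H = g := by
  have h : A.image τ = T := by
    apply eq_of_subset_of_card_le
    · intro g hg
      rw [mem_image] at hg
      obtain ⟨H, hH, rfl⟩ := hg
      exact hτ H hH
    · rw [card_image_of_injOn hinj, hA, hT]
  intro g hg
  rw [← h, mem_image] at hg
  exact hg

open Classical in
/-- The colouring on a set of nodes. -/
def SwP (G : SimpleGraph V) {β : Type*} (k : ℕ) (D : V → Finset β) (U : Finset V)
    (col : V → β → Fin (k + 1)) : Prop :=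
  ∀ x ∈ U, Set.InjOn (col x) (D x : Set β) ∧
    ∀ y ∈ U, G.Adj x y → ∀ H ∈ D x, H ∈ D y → col x H = col y H

open Classical in
/-- One step of the sweep. -/
lemma sw_step {L : FaceData G d} {k : ℕ} {F : Finset V} (hF : IsFace L (k + 1) F)
    {β γ : Type*} (D : V → Finset β) (hD : ∀ x ∈ F, (D x).card = k + 1)
    (hov : ∀ x ∈ F, ∀ y ∈ F, G.Adj x y → k ≤ (D x ∩ D y).card)
    (hloc : ∀ Q, IsFace L 2 Q → Q ⊆ F → ∃ (τ : β → γ) (T : Finset γ), T.card = k + 1 ∧
      ∀ x ∈ Q, (∀ H ∈ D x, τ H ∈ T) ∧ Set.InjOn τ (D x : Set β))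
    {U : Finset V} (hUF : U ⊆ F) {v : V} (hvF : v ∈ F) (hvU : v ∉ U)
    (hup : ∀ x ∈ F, L.ht v < L.ht x → x ∈ U) (hlow : ∀ x ∈ U, L.ht v < L.ht x)
    {col : V → β → Fin (k + 1)} (hcol : SwP G k D U col) :
    ∃ col', SwP G k D (insert v U) col' := by
  by_cases htop : ∃ w ∈ F, L.ht v < L.ht w
  · obtain ⟨w, hwF, hw⟩ := htop
    obtain ⟨i1, hi1, hi1h⟩ := L.up v w hw
    have hi1d : i1 ∈ dir L F v := (hF.mem_iff hvF).mp hwF hi1
    have hy1F : L.nb v i1 ∈ F := mem_dir.mp hi1d
    have hy1U : L.nb v i1 ∈ U := hup _ hy1F hi1h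
    obtain ⟨cv, hcv, hcv1⟩ := sw_ext (hD v hvF) (hov v hvF _ hy1F (L.adj_nb v i1))
      (hcol _ hy1U).1
    have key : ∀ y ∈ U, G.Adj v y → ∀ H ∈ D v, H ∈ D y → cv H = col y H := by
      intro y hyU hvy H hHv hHy
      obtain ⟨i, rfl⟩ := L.nb_surj v y hvy
      by_cases hii : i = i1
      · subst hii
        exact hcv1 H hHv hHy
      have hyF : L.nb v i ∈ F := hUF hyU
      have hid : i ∈ dir L F v := mem_dir.mpr hyF
      have hih : L.ht v < L.ht (L.nb v i) := hlow _ hyU
      -- the two-dimensional face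
      have hQc : ({i1, i} : Finset (Fin d)).card = 2 := card_pair (Ne.symm hii)
      have hQ : IsFace L 2 (faceOf L v {i1, i}) := by
        have h := isFace_faceOf (L := L) v {i1, i}
        rwa [hQc] at h
      have hQF : faceOf L v {i1, i} ⊆ F := by
        apply hF.faceOf_subset hvF
        intro j hj
        rw [mem_insert, mem_singleton] at hj
        rcases hj with rfl | rfl
        · exact hi1d
        · exact hid
      have hQU : ∀ x ∈ faceOf L v {i1, i}, x ≠ v → x ∈ U := by
        intro x hx hxv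
        refine hup x (hQF hx) (L.up_of v x hxv ?_)
        intro j hj
        have hj' := (mem_faceOf.mp hx) hj
        rw [mem_insert, mem_singleton] at hj'
        rcases hj' with rfl | rfl
        · exact hi1h
        · exact hih
      obtain ⟨τ, T, hT, hτ⟩ := hloc _ hQ hQF
      have hy1Q : L.nb v i1 ∈ faceOf L v {i1, i} := by
        rw [mem_faceOf, L.supp_nb]
        simp
      have hyQ : L.nb v i ∈ faceOf L v {i1, i} := by
        rw [mem_faceOf, L.supp_nb]
        simp
      have hvQ : v ∈ faceOf L v {i1, i} := self_mem_faceOf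
      have hvne : ∀ j, L.nb v j ≠ v := fun j h => G.irrefl (h ▸ L.adj_nb v j)
      -- compatibility along edges
      have hadj : ∀ x ∈ faceOf L v {i1, i}, x ≠ v → ∀ x' ∈ faceOf L v {i1, i}, x' ≠ v →
          G.Adj x x' → ∀ H ∈ D x, ∀ H' ∈ D x', τ H = τ H' → col x H = col x' H' := by
        intro x hx hxv x' hx' hxv' hxx
        exact sw_adj (hD x (hQF hx)) (hD x' (hQF hx')) (hov x (hQF hx) x' (hQF hx') hxx)
          (hτ x hx).2 (hτ x' hx').2 (hcol x (hQU x hx hxv)).1 (hcol x' (hQU x' hx' hxv')).1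
          ((hcol x (hQU x hx hxv)).2 x' (hQU x' hx' hxv') hxx)
      let C : Set V := {x | ∀ H ∈ D x, ∀ H1 ∈ D (L.nb v i1), τ H = τ H1 →
        col x H = col (L.nb v i1) H1}
      have hstep : ∀ x ∈ faceOf L v {i1, i}, x ≠ v → ∀ x' ∈ faceOf L v {i1, i}, x' ≠ v →
          G.Adj x x' → x ∈ C → x' ∈ C := by
        intro x hx hxv x' hx' hxv' hxx hxC H' hH' H1 hH1 hτe
        obtain ⟨H2, hH2, hτ2⟩ := sw_surj (hD x (hQF hx)) hT (hτ x hx).1 (hτ x hx).2 (τ H')
          ((hτ x' hx').1 H' hH')
        rw [← hadj x hx hxv x' hx' hxv' hxx H2 hH2 H' hH' hτ2]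
        exact hxC H2 hH2 H1 hH1 (hτ2.trans hτe)
      have hconn := hQ.conn {v} C (by rw [card_singleton]; omega)
        (fun x x' hxx hx hx' hxv hxv' => by
          rw [mem_singleton] at hxv hxv'
          exact ⟨hstep x hx hxv x' hx' hxv' hxx, hstep x' hx' hxv' x hx hxv hxx.symm⟩)
        hy1Q hyQ (by rw [mem_singleton]; exact hvne i1) (by rw [mem_singleton]; exact hvne i)
      have hy1C : L.nb v i1 ∈ C := by
        intro H hH H1 hH1 hτe
        have : H = H1 := (hτ _ hy1Q).2 hH hH1 hτe
        rw [this]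
      have hyC := hconn.mp hy1C
      -- the element of `D y1` with the same value
      obtain ⟨H1, hH1, hτ1⟩ := sw_surj (hD _ hy1F) hT (hτ _ hy1Q).1 (hτ _ hy1Q).2 (τ H)
        ((hτ v hvQ).1 H hHv)
      have h1 : cv H = col (L.nb v i1) H1 :=
        sw_adj (hD v hvF) (hD _ hy1F) (hov v hvF _ hy1F (L.adj_nb v i1)) (hτ v hvQ).2
          (hτ _ hy1Q).2 hcv (hcol _ hy1U).1 hcv1 H hHv H1 hH1 hτ1.symm
      rw [h1]
      exact (hyC H hHy H1 hH1 hτ1.symm).symm
    refine ⟨Function.update col v cv, ?_⟩
    intro x hx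
    rw [mem_insert] at hx
    rcases hx with rfl | hx
    · rw [Function.update_self]
      refine ⟨hcv, ?_⟩
      intro y hy hxy H hHx hHy
      rw [mem_insert] at hy
      rcases hy with rfl | hy
      · exact absurd hxy G.irrefl
      · have hyx : y ≠ x := fun h => hvU (h ▸ hy)
        rw [Function.update_of_ne hyx]
        exact key y hy hxy H hHx hHy
    · have hxv : x ≠ v := fun h => hvU (h ▸ hx)
      rw [Function.update_of_ne hxv]
      refine ⟨(hcol x hx).1, ?_⟩
      intro y hy hxy H hHx hHy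
      rw [mem_insert] at hy
      rcases hy with rfl | hy
      · rw [Function.update_self]
        exact (key x hx hxy.symm H hHy hHx).symm
      · have hyv : y ≠ v := fun h => hvU (h ▸ hy)
        rw [Function.update_of_ne hyv]
        exact (hcol x hx).2 y hy hxy H hHx hHy
  · -- `v` is the highest node of `F`
    have hU : ∀ x, x ∉ U := fun x hx => htop ⟨x, hUF hx, hlow x hx⟩
    obtain ⟨cv, hcv⟩ := sw_inj (hD v hvF)
    refine ⟨fun _ => cv, ?_⟩
    intro x hx
    rw [mem_insert] at hx
    rcases hx with rfl | hx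
    · refine ⟨hcv, ?_⟩
      intro y hy hxy
      rw [mem_insert] at hy
      rcases hy with rfl | hy
      · exact absurd hxy G.irrefl
      · exact absurd hy (hU y)
    · exact absurd hx (hU x)

open Classical in
/-- Simple connectivity by a sweep. -/
theorem sweep {L : FaceData G d} {k : ℕ} {F : Finset V} (hF : IsFace L (k + 1) F)
    {β γ : Type*} (D : V → Finset β) (hD : ∀ x ∈ F, (D x).card = k + 1)
    (hov : ∀ x ∈ F, ∀ y ∈ F, G.Adj x y → k ≤ (D x ∩ D y).card)
    (hloc : ∀ Q, IsFace L 2 Q → Q ⊆ F → ∃ (τ : β → γ) (T : Finset γ), T.card = k + 1 ∧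
      ∀ x ∈ Q, (∀ H ∈ D x, τ H ∈ T) ∧ Set.InjOn τ (D x : Set β)) :
    ∃ col : V → β → Fin (k + 1), ∀ x ∈ F, Set.InjOn (col x) (D x : Set β) ∧
      ∀ y ∈ F, G.Adj x y → ∀ H ∈ D x, H ∈ D y → col x H = col y H := by
  have main : ∀ (n : ℕ) (U : Finset V), U ⊆ F → (F \ U).card = n →
      (∀ x ∈ U, ∀ y ∈ F, L.ht x < L.ht y → y ∈ U) →
      ∀ col : V → β → Fin (k + 1), SwP G k D U col → ∃ col', SwP G k D F col' := by
    intro n
    induction n with
    | zero =>
      intro U hUF hc _ col hcol
      have h1 : F \ U = ∅ := card_eq_zero.mp hc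
      have h2 : F ⊆ U := sdiff_eq_empty_iff_subset.mp h1
      have h3 : F = U := h2.antisymm hUF
      exact ⟨col, h3 ▸ hcol⟩
    | succ n ih =>
      intro U hUF hc hup col hcol
      have hne : (F \ U).Nonempty := card_pos.mp (by omega)
      obtain ⟨v, hv, hmax⟩ := exists_max_image (F \ U) L.ht hne
      rw [mem_sdiff] at hv
      have hup' : ∀ x ∈ F, L.ht v < L.ht x → x ∈ U := by
        intro x hx hlt
        by_contra hxU
        exact absurd (hmax x (mem_sdiff.mpr ⟨hx, hxU⟩)) (not_le.mpr hlt)
      have hlow : ∀ x ∈ U, L.ht v < L.ht x := by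
        intro x hx
        rcases lt_trichotomy (L.ht v) (L.ht x) with h | h | h
        · exact h
        · exact absurd (L.ht_inj h ▸ hx) hv.2
        · exact absurd (hup x hx v hv.1 h) hv.2
      obtain ⟨col', hcol'⟩ := sw_step hF D hD hov hloc hUF hv.1 hv.2 hup' hlow hcol
      refine ih (insert v U) ?_ ?_ ?_ col' hcol'
      · intro x hx
        rw [mem_insert] at hx
        rcases hx with rfl | hx
        · exact hv.1
        · exact hUF hx
      · have h1 : F \ insert v U = (F \ U).erase v := by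
          ext x
          simp only [mem_sdiff, mem_insert, mem_erase, not_or]
          tauto
        rw [h1, card_erase_of_mem (mem_sdiff.mpr hv), hc]
        rfl
      · intro x hx y hy hlt
        rw [mem_insert] at hx ⊢
        rcases hx with rfl | hx
        · exact Or.inr (hup' y hy hlt)
        · exact Or.inr (hup x hx y hy hlt)
  exact main _ ∅ (empty_subset _) rfl (fun x hx => absurd hx (notMem_empty x)) (fun _ _ => 0)
    (fun x hx => absurd hx (notMem_empty x))

end Pool.Agent.Helper82.TotSep
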