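import Mathlib
import Pool.Agent.Helper82.TotSep.Coord

/-!
# Connectivity of the faces of a simple polytope, seen from the local coordinates
-/

namespace Pool.Agent.Helper82.TotSep

open Set Pool.Agent.Helper70.Poly

variable {d : ℕ} {P : Set (Fin d → ℝ)}

/-- The vertices of the face at `v` spanned by `S` which lie above a level of a functional. -/
lemma cn_upper (hP : IsSimplePolytope P) (c : Coord P) (v : P.extremePoints ℝ)
    (S : Finset (Fin d)) (lam : Fin d → ℝ) (r : ℝ) (T C : Set (P.extremePoints ℝ))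
    (hT : ∀ x ∈ T, c.supp v x ⊆ S → ∑ i, lam i * c.co v i x ≤ r)
    (hC : ∀ x y, (skel P).Adj x y → c.supp v x ⊆ S → c.supp v y ⊆ S → x ∉ T → y ∉ T →
      (x ∈ C ↔ y ∈ C))
    (y : P.extremePoints ℝ) (hy : c.supp v y ⊆ S) (hry : r < ∑ i, lam i * c.co v i y) :
    ∀ a b, c.supp v a ⊆ S → c.supp v b ⊆ S → a ∉ T → b ∉ T → r ≤ ∑ i, lam i * c.co v i a →
      r ≤ ∑ i, lam i * c.co v i b → (a ∈ C ↔ b ∈ C) := by
  classical
  have hTfin : (P.extremePoints ℝ).Finite := IsPoly.finite_extremePoints hP.1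
  have : Finite (P.extremePoints ℝ) := hTfin
  have : Fintype (P.extremePoints ℝ) := Fintype.ofFinite _
  set val : P.extremePoints ℝ → ℝ := fun x => ∑ i, lam i * c.co v i x with hval
  set out : P.extremePoints ℝ → ℝ := fun x => ∑ i ∈ Finset.univ \ S, c.co v i x with hout
  have hout0 : ∀ x, c.supp v x ⊆ S → out x = 0 := by
    intro x hx
    refine Finset.sum_eq_zero fun i hi => ?_
    exact Coord.supp_subset_iff.mp hx i (Finset.mem_sdiff.mp hi).2
  have hout1 : ∀ x, ¬ c.supp v x ⊆ S → 0 < out x := by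
    intro x hx
    rw [Coord.supp_subset_iff] at hx
    push Not at hx
    obtain ⟨i, hiS, hi⟩ := hx
    refine Finset.sum_pos' (fun j _ => Coord.co_nonneg v j x)
      ⟨i, Finset.mem_sdiff.mpr ⟨Finset.mem_univ i, hiS⟩, ?_⟩
    exact lt_of_le_of_ne (Coord.co_nonneg v i x) (Ne.symm hi)
  obtain ⟨W, hW⟩ : ∃ W : ℝ, ∀ x : P.extremePoints ℝ, (val x - r) / out x ≤ W := by
    obtain ⟨W, hW⟩ := (Set.finite_range fun x : P.extremePoints ℝ => (val x - r) / out x).bddAbove
    exact ⟨W, fun x => hW ⟨x, rfl⟩⟩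
  set L : (Fin d → ℝ) →ₗ[ℝ] ℝ :=
    ∑ i, lam i • (c.B v).coord i - W • ∑ i ∈ Finset.univ \ S, (c.B v).coord i with hL
  set φ : (Fin d → ℝ) →L[ℝ] ℝ := LinearMap.toContinuousLinearMap L with hφ
  have hφx : ∀ x : P.extremePoints ℝ, φ x.1 = φ v.1 + (val x - W * out x) := by
    intro x
    have h1 : φ x.1 - φ v.1 = L (x.1 - v.1) := by
      rw [map_sub]; rfl
    have h2 : L (x.1 - v.1) = val x - W * out x := by
      rw [hL, LinearMap.sub_apply, LinearMap.smul_apply, LinearMap.sum_apply,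
        LinearMap.sum_apply]
      rfl
    linarith
  have hin : ∀ x : P.extremePoints ℝ, c.supp v x ⊆ S → φ x.1 = φ v.1 + val x := by
    intro x hx
    rw [hφx, hout0 x hx, mul_zero, sub_zero]
  have hnot : ∀ x : P.extremePoints ℝ, ¬ c.supp v x ⊆ S → φ x.1 ≤ φ v.1 + r := by
    intro x hx
    have h1 := hW x
    rw [div_le_iff₀ (hout1 x hx)] at h1
    rw [hφx]
    linarith
  intro a b ha hb haT hbT hra hrb
  refine upper_connected (P := P) hP.1 φ (φ v.1 + r) {x | c.supp v x ⊆ S → x ∈ T} C ?_ ?_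
    (y := y.1) (extremePoints_subset y.2) ?_ a b ?_ ?_ ?_ ?_
  · intro x hx
    by_cases hxS : c.supp v x ⊆ S
    · rw [hin x hxS]
      have := hT x (hx hxS) hxS
      linarith
    · exact hnot x hxS
  · intro x z hxz hx hz
    have hx' : c.supp v x ⊆ S ∧ x ∉ T := by
      rw [Set.mem_ofPred_eq] at hx
      push Not at hx
      exact hx
    have hz' : c.supp v z ⊆ S ∧ z ∉ T := by
      rw [Set.mem_ofPred_eq] at hz
      push Not at hz
      exact hz
    exact hC x z hxz hx'.1 hz'.1 hx'.2 hz'.2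
  · rw [hin y hy]
    linarith
  · intro h
    exact haT (h ha)
  · intro h
    exact hbT (h hb)
  · rw [hin a ha]
    linarith
  · rw [hin b hb]
    linarith

/-- Balinski's theorem in the faces through `v`. -/
theorem Coord.conn (hP : IsSimplePolytope P) (c : Coord P) (v : P.extremePoints ℝ)
    (S : Finset (Fin d)) (T : Finset (P.extremePoints ℝ)) (C : Set (P.extremePoints ℝ))
    (hT : T.card < S.card)
    (hC : ∀ x y, (skel P).Adj x y → c.supp v x ⊆ S → c.supp v y ⊆ S → x ∉ T → y ∉ T →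
      (x ∈ C ↔ y ∈ C)) :
    ∀ a b, c.supp v a ⊆ S → c.supp v b ⊆ S → a ∉ T → b ∉ T → (a ∈ C ↔ b ∈ C) := by
  classical
  intro a b ha hb haT hbT
  -- a functional which is constant on `T ∪ {a}` but not on the face
  let M : (S → ℝ) →ₗ[ℝ] (T → ℝ) := LinearMap.pi fun t =>
    ∑ i : S, (c.co v i t.1 - c.co v i a) • LinearMap.proj i
  have hM : ¬ Function.Injective M := by
    intro hinj
    have := LinearMap.finrank_le_finrank_of_injective hinj
    rw [Module.finrank_fintype_fun_eq_card, Module.finrank_fintype_fun_eq_card,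
      Fintype.card_coe, Fintype.card_coe] at this
    omega
  rw [injective_iff_map_eq_zero] at hM
  push Not at hM
  obtain ⟨mu, hmu, hmu0⟩ := hM
  obtain ⟨j, hj⟩ : ∃ j : S, mu j ≠ 0 := by
    by_contra h
    push Not at h
    exact hmu0 (funext h)
  set lam : Fin d → ℝ := fun i => if h : i ∈ S then mu ⟨i, h⟩ else 0 with hlam
  have hsum : ∀ f : Fin d → ℝ, ∑ i, lam i * f i = ∑ i : S, mu i * f i := by
    intro f
    rw [← Finset.sum_subset (Finset.subset_univ S) (fun i _ hi => by simp [hlam, hi]),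
      ← Finset.sum_coe_sort S]
    refine Finset.sum_congr rfl fun i _ => ?_
    simp [hlam]
  have hlamT : ∀ t ∈ T, ∑ i, lam i * c.co v i t = ∑ i, lam i * c.co v i a := by
    intro t ht
    have h1 := congrFun hmu ⟨t, ht⟩
    simp only [M, LinearMap.pi_apply, LinearMap.sum_apply, LinearMap.smul_apply,
      LinearMap.proj_apply, smul_eq_mul, Pi.zero_apply] at h1
    rw [hsum, hsum, ← sub_eq_zero, ← Finset.sum_sub_distrib, ← h1]
    refine Finset.sum_congr rfl fun i _ => ?_
    ring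
  have hv : c.supp v v ⊆ S := Coord.supp_subset_iff.mpr fun i _ => Coord.co_self v i
  have hjS : c.supp v (c.nb v j) ⊆ S := by
    rw [Coord.supp_subset_iff]
    intro i hi
    rw [Coord.co_nb, if_neg]
    intro h
    exact hi (h ▸ j.2)
  have hv0 : ∑ i, lam i * c.co v i v = 0 := by
    simp [Coord.co_self]
  have hj0 : ∑ i, lam i * c.co v i (c.nb v j) ≠ 0 := by
    have : ∑ i, lam i * c.co v i (c.nb v j) = mu j := by
      simp [Coord.co_nb, hlam]
    rw [this]
    exact hj
  obtain ⟨y, hy, hya⟩ : ∃ y, c.supp v y ⊆ S ∧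
      ∑ i, lam i * c.co v i y ≠ ∑ i, lam i * c.co v i a := by
    by_contra h
    push Not at h
    apply hj0
    rw [h _ hjS, ← h _ hv, hv0]
  have hneg : ∀ x, ∑ i, (-lam i) * c.co v i x = -∑ i, lam i * c.co v i x := by
    intro x
    simp [Finset.sum_neg_distrib]
  have hup : ∀ z, c.supp v z ⊆ S → ∑ i, lam i * c.co v i a < ∑ i, lam i * c.co v i z →
      ∀ w, c.supp v w ⊆ S → w ∉ T → ∑ i, lam i * c.co v i a ≤ ∑ i, lam i * c.co v i w →
        (a ∈ C ↔ w ∈ C) := by
    intro z hz hlt w hwS hw hle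
    refine cn_upper hP c v S lam (∑ i, lam i * c.co v i a) (↑T) C
      (fun x hx _ => (hlamT x hx).le) ?_ z hz hlt a w ha hwS haT hw le_rfl hle
    intro x y hxy hx hy hxT hyT
    exact hC x y hxy hx hy hxT hyT
  have hdown : ∀ z, c.supp v z ⊆ S → ∑ i, lam i * c.co v i z < ∑ i, lam i * c.co v i a →
      ∀ w, c.supp v w ⊆ S → w ∉ T → ∑ i, lam i * c.co v i w ≤ ∑ i, lam i * c.co v i a →
        (a ∈ C ↔ w ∈ C) := by
    intro z hz hlt w hwS hw hle
    refine cn_upper hP c v S (fun i => -lam i) (-∑ i, lam i * c.co v i a) (↑T) C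
      (fun x hx _ => ?_) ?_ z hz ?_ a w ha hwS haT hw ?_ ?_
    · rw [hneg, hlamT x hx]
    · intro x y hxy hx hy hxT hyT
      exact hC x y hxy hx hy hxT hyT
    · rw [hneg]; linarith
    · rw [hneg]
    · rw [hneg]; linarith
  by_cases hboth : (∃ z, c.supp v z ⊆ S ∧
      ∑ i, lam i * c.co v i a < ∑ i, lam i * c.co v i z) ∧
      ∃ z, c.supp v z ⊆ S ∧ ∑ i, lam i * c.co v i z < ∑ i, lam i * c.co v i a
  · obtain ⟨⟨z1, hz1, h1⟩, ⟨z2, hz2, h2⟩⟩ := hboth
    rcases le_total (∑ i, lam i * c.co v i a) (∑ i, lam i * c.co v i b) with h | h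
    · exact hup z1 hz1 h1 b hb hbT h
    · exact hdown z2 hz2 h2 b hb hbT h
  · rcases lt_or_gt_of_ne hya with h | h
    · have hno : ∀ z, c.supp v z ⊆ S → ∑ i, lam i * c.co v i z ≤ ∑ i, lam i * c.co v i a := by
        intro z hz
        by_contra hlt
        push Not at hlt
        exact hboth ⟨⟨z, hz, hlt⟩, ⟨y, hy, h⟩⟩
      exact hdown y hy h b hb hbT (hno b hb)
    · have hno : ∀ z, c.supp v z ⊆ S → ∑ i, lam i * c.co v i a ≤ ∑ i, lam i * c.co v i z := by
        intro z hz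
        by_contra hlt
        push Not at hlt
        exact hboth ⟨⟨y, hy, h⟩, ⟨z, hz, hlt⟩⟩
      exact hup y hy h b hb hbT (hno b hb)

/-- The complement of a facet in a face through `v` is connected. -/
theorem Coord.compl (hP : IsSimplePolytope P) (c : Coord P) (v : P.extremePoints ℝ)
    (S : Finset (Fin d)) (l : Fin d) (hl : l ∈ S) (C : Set (P.extremePoints ℝ))
    (hC : ∀ x y, (skel P).Adj x y → c.supp v x ⊆ S → l ∈ c.supp v x → c.supp v y ⊆ S →
      l ∈ c.supp v y → (x ∈ C ↔ y ∈ C)) :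
    ∀ a b, c.supp v a ⊆ S → l ∈ c.supp v a → c.supp v b ⊆ S → l ∈ c.supp v b →
      (a ∈ C ↔ b ∈ C) := by
  classical
  intro a b ha hla hb hlb
  have hsum : ∀ x, ∑ i, (if i = l then (1 : ℝ) else 0) * c.co v i x = c.co v l x := by
    intro x
    simp
  refine cn_upper hP c v S (fun i => if i = l then 1 else 0) 0 {x | l ∉ c.supp v x} C
    (fun x hx _ => ?_) (fun x y hxy hx hy hxT hyT => ?_) a ha ?_ a b ha hb ?_ ?_ ?_ ?_
  · rw [hsum]
    have h1 : ¬ (0 < c.co v l x) := fun h => hx (Coord.mem_supp_iff_pos.mpr h)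
    linarith
  · exact hC x y hxy hx (by simpa using hxT) hy (by simpa using hyT)
  · rw [hsum]
    exact Coord.mem_supp_iff_pos.mp hla
  · simpa using hla
  · simpa using hlb
  · rw [hsum]
    exact Coord.co_nonneg v l a
  · rw [hsum]
    exact Coord.co_nonneg v l b

end Pool.Agent.Helper82.TotSep
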