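import Pool.Agent.Helper82.TotSep.Coord

/-!
# Orientation of the 2-faces of a simple polytope
-/

set_option autoImplicit false

namespace Pool.Agent.Helper82.TotSep

open Set Pool.Agent.Helper70.Poly

variable {d : ℕ} {P : Set (Fin d → ℝ)}

private noncomputable def ori_det (c : Coord P) (v : P.extremePoints ℝ) (i j : Fin d)
    (x y z : P.extremePoints ℝ) : ℝ :=
  (c.co v i y - c.co v i x) * (c.co v j z - c.co v j x) -
    (c.co v j y - c.co v j x) * (c.co v i z - c.co v i x)

private theorem ori_det_swap (c : Coord P) (v : P.extremePoints ℝ) (i j : Fin d)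
    (x y z : P.extremePoints ℝ) : ori_det c v i j y x z = -ori_det c v i j x y z := by
  unfold ori_det
  ring

private theorem ori_supp_nb (c : Coord P) (x : P.extremePoints ℝ) (m : Fin d) :
    c.supp x (c.nb x m) = {m} := by
  ext m'
  rw [Coord.mem_supp, Coord.co_nb, Finset.mem_singleton]
  by_cases h : m = m'
  · simp [h]
  · simp [h, Ne.symm h]

/-- all coordinates vanish -/
private theorem ori_zero (c : Coord P) (v : P.extremePoints ℝ) {u : Fin d → ℝ}
    (h : ∀ m, (c.B v).coord m u = 0) : u = 0 :=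
  (c.B v).forall_coord_eq_zero_iff.mp h

/-- independence of two edge directions -/
private theorem ori_indep (c : Coord P) (x : P.extremePoints ℝ) {p q : Fin d} (hpq : p ≠ q)
    {s t : ℝ} (h : s • ((c.nb x p).1 - x.1) + t • ((c.nb x q).1 - x.1) = 0) : s = 0 ∧ t = 0 := by
  have key : ∀ m, s * (if p = m then 1 else 0) + t * (if q = m then 1 else 0) = 0 := by
    intro m
    have h1 := congrArg ((c.B x).coord m) h
    rw [map_add, map_smul, map_smul, map_zero, Coord.co_sub, Coord.co_sub, Coord.co_nb,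
      Coord.co_nb, Coord.co_self, sub_zero, sub_zero, smul_eq_mul, smul_eq_mul] at h1
    exact h1
  constructor
  · have h1 := key p
    rw [if_pos rfl, if_neg (Ne.symm hpq)] at h1
    linarith
  · have h1 := key q
    rw [if_pos rfl, if_neg hpq] at h1
    linarith

private theorem ori_local (c : Coord P)
    (htr : ∀ (v w : P.extremePoints ℝ) (S : Finset (Fin d)), c.supp v w ⊆ S →
      ∃ S' : Finset (Fin d), S'.card = S.card ∧ ∀ x, c.supp v x ⊆ S ↔ c.supp w x ⊆ S')
    (v : P.extremePoints ℝ) (i j : Fin d) (hij : i ≠ j) (x : P.extremePoints ℝ)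
    (hx : c.supp v x ⊆ {i, j}) : ∃ (p q : Fin d) (δ : ℝ), δ ≠ 0 ∧
      c.supp v (c.nb x p) ⊆ {i, j} ∧ c.supp v (c.nb x q) ⊆ {i, j} ∧
      c.co x q (c.nb x q) = 1 ∧ c.co x p (c.nb x p) = 1 ∧
      (∀ y, (skel P).Adj x y → c.supp v y ⊆ {i, j} → y = c.nb x p ∨ y = c.nb x q) ∧
      (∀ z, c.supp v z ⊆ {i, j} → ori_det c v i j x (c.nb x p) z = c.co x q z * δ) ∧
      (∀ z, c.supp v z ⊆ {i, j} → ori_det c v i j x (c.nb x q) z = -(c.co x p z * δ)) := by
  classical
  obtain ⟨S', hS', hF⟩ := htr v x {i, j} hx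
  rw [Finset.card_pair hij, Finset.card_eq_two] at hS'
  obtain ⟨p, q, hpq, rfl⟩ := hS'
  have hp : c.supp v (c.nb x p) ⊆ {i, j} := by
    rw [hF, ori_supp_nb]
    simp
  have hq : c.supp v (c.nb x q) ⊆ {i, j} := by
    rw [hF, ori_supp_nb]
    simp
  have hexp : ∀ (k : Fin d) (z : P.extremePoints ℝ), c.supp v z ⊆ {i, j} →
      c.co v k z - c.co v k x = c.co x p z * (c.co v k (c.nb x p) - c.co v k x) +
        c.co x q z * (c.co v k (c.nb x q) - c.co v k x) := by
    intro k z hz
    have h0 := Coord.supp_subset_iff.mp ((hF z).mp hz)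
    rw [Coord.co_change v x z k]
    have h1 : ∑ m, c.co x m z * (c.co v k (c.nb x m) - c.co v k x) =
        ∑ m ∈ ({p, q} : Finset (Fin d)), c.co x m z * (c.co v k (c.nb x m) - c.co v k x) := by
      symm
      refine Finset.sum_subset (Finset.subset_univ _) fun m _ hm => ?_
      rw [h0 m hm, zero_mul]
    rw [h1, Finset.sum_pair hpq]
    ring
  refine ⟨p, q, ori_det c v i j x (c.nb x p) (c.nb x q), ?_, hp, hq, ?_, ?_, ?_, ?_, ?_⟩
  · intro hδ
    unfold ori_det at hδ
    have hcoord : ∀ (s t : ℝ) (m : Fin d),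
        (c.B v).coord m (s • ((c.nb x p).1 - x.1) + t • ((c.nb x q).1 - x.1)) =
          s * (c.co v m (c.nb x p) - c.co v m x) + t * (c.co v m (c.nb x q) - c.co v m x) := by
      intro s t m
      rw [map_add, map_smul, map_smul, Coord.co_sub, Coord.co_sub, smul_eq_mul, smul_eq_mul]
    have hother : ∀ m, m ∉ ({i, j} : Finset (Fin d)) → c.co v m (c.nb x p) = 0 ∧
        c.co v m (c.nb x q) = 0 ∧ c.co v m x = 0 := fun m hm =>
      ⟨Coord.supp_subset_iff.mp hp m hm, Coord.supp_subset_iff.mp hq m hm,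
        Coord.supp_subset_iff.mp hx m hm⟩
    have hall : ∀ s t : ℝ,
        s * (c.co v i (c.nb x p) - c.co v i x) + t * (c.co v i (c.nb x q) - c.co v i x) = 0 →
        s * (c.co v j (c.nb x p) - c.co v j x) + t * (c.co v j (c.nb x q) - c.co v j x) = 0 →
        s = 0 ∧ t = 0 := by
      intro s t h1 h2
      refine ori_indep c x hpq (ori_zero c v fun m => ?_)
      rw [hcoord]
      by_cases hm : m ∈ ({i, j} : Finset (Fin d))
      · rw [Finset.mem_insert, Finset.mem_singleton] at hm
        rcases hm with rfl | rfl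
        · exact h1
        · exact h2
      · obtain ⟨e1, e2, e3⟩ := hother m hm
        rw [e1, e2, e3]
        ring
    have hA := hall (c.co v i (c.nb x q) - c.co v i x) (-(c.co v i (c.nb x p) - c.co v i x))
      (by ring) (by linarith)
    have hB := hall (c.co v j (c.nb x q) - c.co v j x) (-(c.co v j (c.nb x p) - c.co v j x))
      (by linarith) (by ring)
    have hC := hall 1 0 (by linarith [hA.2]) (by linarith [hB.2])
    exact one_ne_zero hC.1
  · rw [Coord.co_nb, if_pos rfl]
  · rw [Coord.co_nb, if_pos rfl]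
  · intro y hy hyF
    obtain ⟨m, rfl⟩ := c.surj x y hy
    rw [hF, ori_supp_nb, Finset.singleton_subset_iff, Finset.mem_insert,
      Finset.mem_singleton] at hyF
    rcases hyF with rfl | rfl
    · exact Or.inl rfl
    · exact Or.inr rfl
  · intro z hz
    unfold ori_det
    rw [hexp i z hz, hexp j z hz]
    ring
  · intro z hz
    unfold ori_det
    rw [hexp i z hz, hexp j z hz]
    ring

theorem Coord.ori (c : Coord P) (htr : ∀ (v w : P.extremePoints ℝ) (S : Finset (Fin d)),
    c.supp v w ⊆ S → ∃ S' : Finset (Fin d), S'.card = S.card ∧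
      ∀ x, c.supp v x ⊆ S ↔ c.supp w x ⊆ S')
    (v : P.extremePoints ℝ) (i j : Fin d) (hij : i ≠ j) :
    ∃ o : P.extremePoints ℝ → P.extremePoints ℝ → Prop,
      (∀ x y, (skel P).Adj x y → c.supp v x ⊆ {i, j} → c.supp v y ⊆ {i, j} →
        (o x y ↔ ¬ o y x)) ∧
      ∀ x y z, (skel P).Adj x y → (skel P).Adj x z → y ≠ z → c.supp v x ⊆ {i, j} →
        c.supp v y ⊆ {i, j} → c.supp v z ⊆ {i, j} → (o x y ↔ ¬ o x z) := by
  refine ⟨fun x y => ∀ z, c.supp v z ⊆ {i, j} → 0 ≤ ori_det c v i j x y z, ?_, ?_⟩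
  · intro x y hxy hx hy
    obtain ⟨p, q, δ, hδ, hp, hq, hq1, hp1, hnb, h1, h2⟩ := ori_local c htr v i j hij x hx
    have key : ∀ (w w' : P.extremePoints ℝ) (m : Fin d) (ε : ℝ), ε ≠ 0 →
        c.supp v w' ⊆ {i, j} → c.co x m w' = 1 →
        (∀ z, c.supp v z ⊆ {i, j} → ori_det c v i j x w z = c.co x m z * ε) →
        ((∀ z, c.supp v z ⊆ {i, j} → 0 ≤ ori_det c v i j x w z) ↔
          ¬ ∀ z, c.supp v z ⊆ {i, j} → 0 ≤ ori_det c v i j w x z) := by
      intro w w' m ε hε hw' hm hdet
      have e1 : (∀ z, c.supp v z ⊆ {i, j} → 0 ≤ ori_det c v i j x w z) ↔ 0 < ε := by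
        constructor
        · intro h
          have := h w' hw'
          rw [hdet w' hw', hm, one_mul] at this
          exact lt_of_le_of_ne this (Ne.symm hε)
        · intro h z hz
          rw [hdet z hz]
          exact mul_nonneg (Coord.co_nonneg x m z) h.le
      have e2 : (∀ z, c.supp v z ⊆ {i, j} → 0 ≤ ori_det c v i j w x z) ↔ ε < 0 := by
        constructor
        · intro h
          have := h w' hw'
          rw [ori_det_swap, hdet w' hw', hm, one_mul] at this
          exact lt_of_le_of_ne (by linarith) hε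
        · intro h z hz
          rw [ori_det_swap, hdet z hz]
          have := mul_nonneg (Coord.co_nonneg (c := c) x m z) (neg_nonneg.mpr h.le)
          linarith
      rw [e1, e2, not_lt]
      exact ⟨fun h => h.le, fun h => lt_of_le_of_ne h (Ne.symm hε)⟩
    rcases hnb y hxy hy with rfl | rfl
    · exact key _ (c.nb x q) q δ hδ hq hq1 h1
    · refine key _ (c.nb x p) p (-δ) (neg_ne_zero.mpr hδ) hp hp1 fun z hz => ?_
      rw [h2 z hz]
      ring
  · intro x y z hxy hxz hyz hx hy hz
    obtain ⟨p, q, δ, hδ, hp, hq, hq1, hp1, hnb, h1, h2⟩ := ori_local c htr v i j hij x hx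
    have e1 : (∀ z, c.supp v z ⊆ {i, j} → 0 ≤ ori_det c v i j x (c.nb x p) z) ↔ 0 < δ := by
      constructor
      · intro h
        have := h _ hq
        rw [h1 _ hq, hq1, one_mul] at this
        exact lt_of_le_of_ne this (Ne.symm hδ)
      · intro h z hz
        rw [h1 z hz]
        exact mul_nonneg (Coord.co_nonneg x q z) h.le
    have e2 : (∀ z, c.supp v z ⊆ {i, j} → 0 ≤ ori_det c v i j x (c.nb x q) z) ↔ δ < 0 := by
      constructor
      · intro h
        have := h _ hp
        rw [h2 _ hp, hp1, one_mul] at this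
        exact lt_of_le_of_ne (by linarith) hδ
      · intro h z hz
        rw [h2 z hz]
        have := mul_nonneg (Coord.co_nonneg (c := c) x p z) (neg_nonneg.mpr h.le)
        linarith
    show (∀ z, c.supp v z ⊆ {i, j} → 0 ≤ ori_det c v i j x y z) ↔
      ¬ ∀ w, c.supp v w ⊆ {i, j} → 0 ≤ ori_det c v i j x z w
    rcases hnb y hxy hy with rfl | rfl <;> rcases hnb z hxz hz with rfl | rfl
    · exact absurd rfl hyz
    · rw [e1, e2, not_lt]
      exact ⟨fun h => h.le, fun h => lt_of_le_of_ne h (Ne.symm hδ)⟩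
    · rw [e1, e2, not_lt]
      exact ⟨fun h => h.le, fun h => lt_of_le_of_ne h hδ⟩
    · exact absurd rfl hyz

end Pool.Agent.Helper82.TotSep
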