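import Mathlib
import Pool.Agent.Helper82.TotSep.Coord

/-!
# Transport of faces between vertices, and generic heights
-/

namespace Pool.Agent.Helper82.TotSep

open Set Pool.Agent.Helper70.Poly

variable {d : ℕ} {P : Set (Fin d → ℝ)}

lemma tr_span (c : Coord P) (v : P.extremePoints ℝ) (S : Finset (Fin d)) :
    Submodule.span ℝ (Set.range fun i : S => c.B v i) =
      Submodule.span ℝ {y | ∃ x, c.supp v x ⊆ S ∧ y = x.1 - v.1} := by
  classical
  apply le_antisymm
  · rw [Submodule.span_le]
    rintro _ ⟨i, rfl⟩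
    apply Submodule.subset_span
    refine ⟨c.nb v i, ?_, c.basis v i⟩
    rw [Coord.supp_subset_iff]
    intro j hj
    rw [Coord.co_nb, if_neg]
    rintro rfl
    exact hj i.2
  · rw [Submodule.span_le]
    rintro _ ⟨x, hx, rfl⟩
    rw [Coord.supp_subset_iff] at hx
    change x.1 - v.1 ∈ Submodule.span ℝ _
    rw [Coord.expand (c := c) v x]
    refine Submodule.sum_mem _ fun i _ => ?_
    by_cases hi : i ∈ S
    · refine Submodule.smul_mem _ _ (Submodule.subset_span ⟨⟨i, hi⟩, ?_⟩)
      exact c.basis v i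
    · rw [hx i hi, zero_smul]
      exact Submodule.zero_mem _

lemma tr_finrank (c : Coord P) (v : P.extremePoints ℝ) (S : Finset (Fin d)) :
    Module.finrank ℝ (Submodule.span ℝ {y | ∃ x, c.supp v x ⊆ S ∧ y = x.1 - v.1}) = S.card := by
  have hli : LinearIndependent ℝ (fun i : S => c.B v i) :=
    (c.B v).linearIndependent.comp (fun i : S => (i : Fin d)) Subtype.val_injective
  rw [← tr_span, finrank_span_eq_card hli]
  simp

lemma tr_le (v w : P.extremePoints ℝ) (p q : P.extremePoints ℝ → Prop)
    (hpq : ∀ x, q x → p x) (hw : p w) :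
    Submodule.span ℝ {y | ∃ x, q x ∧ y = x.1 - w.1} ≤
      Submodule.span ℝ {y | ∃ x, p x ∧ y = x.1 - v.1} := by
  rw [Submodule.span_le]
  rintro _ ⟨x, hx, rfl⟩
  have e : x.1 - w.1 = (x.1 - v.1) - (w.1 - v.1) := by abel
  change x.1 - w.1 ∈ Submodule.span ℝ _
  rw [e]
  exact Submodule.sub_mem _ (Submodule.subset_span ⟨x, hpq x hx, rfl⟩)
    (Submodule.subset_span ⟨w, hw, rfl⟩)

theorem Coord.trans (c : Coord P) (v w : P.extremePoints ℝ) (S : Finset (Fin d))
    (h : c.supp v w ⊆ S) :
    ∃ S' : Finset (Fin d), S'.card = S.card ∧ ∀ x, c.supp v x ⊆ S ↔ c.supp w x ⊆ S' := by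
  classical
  rw [Coord.supp_subset_iff] at h
  have hiff : ∀ x, c.supp v x ⊆ S ↔
      c.supp w x ⊆ Finset.univ.filter (fun i => c.supp v (c.nb w i) ⊆ S) := by
    intro x
    rw [Coord.supp_subset_iff, Coord.supp_subset_iff]
    constructor
    · intro hx j hj
      by_contra hne
      apply hj
      rw [Finset.mem_filter]
      refine ⟨Finset.mem_univ _, ?_⟩
      rw [Coord.supp_subset_iff]
      intro m hm
      have h1 := Coord.co_change (c := c) v w x m
      rw [hx m hm, h m hm, zero_add] at h1
      have h2 : ∀ k ∈ (Finset.univ : Finset (Fin d)),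
          0 ≤ c.co w k x * (c.co v m (c.nb w k) - 0) := by
        intro k _
        rw [sub_zero]
        exact mul_nonneg (Coord.co_nonneg _ _ _) (Coord.co_nonneg _ _ _)
      have h3 := (Finset.sum_eq_zero_iff_of_nonneg h2).mp h1.symm j (Finset.mem_univ _)
      rw [sub_zero] at h3
      exact (mul_eq_zero.mp h3).resolve_left hne
    · intro hx m hm
      rw [Coord.co_change (c := c) v w x m, h m hm, zero_add]
      refine Finset.sum_eq_zero fun j _ => ?_
      by_cases hj : c.supp v (c.nb w j) ⊆ S
      · rw [Coord.supp_subset_iff] at hj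
        rw [hj m hm, sub_zero, mul_zero]
      · rw [hx j, zero_mul]
        intro hmem
        exact hj (Finset.mem_filter.mp hmem).2
  refine ⟨_, ?_, hiff⟩
  have hv : c.supp v v ⊆ S := by
    rw [Coord.supp_subset_iff]
    intro i _
    exact Coord.co_self v i
  have hw : c.supp v w ⊆ S := by
    rw [Coord.supp_subset_iff]
    exact h
  have e := le_antisymm
    (tr_le v w (fun x => c.supp v x ⊆ S)
      (fun x => c.supp w x ⊆ Finset.univ.filter (fun i => c.supp v (c.nb w i) ⊆ S))
      (fun x hx => (hiff x).mpr hx) hw)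
    (tr_le w v (fun x => c.supp w x ⊆ Finset.univ.filter (fun i => c.supp v (c.nb w i) ⊆ S))
      (fun x => c.supp v x ⊆ S)
      (fun x hx => (hiff x).mp hx) ((hiff v).mp hv))
  rw [← tr_finrank c w, ← tr_finrank c v, e]

theorem Coord.exists_height (hP : IsSimplePolytope P) (c : Coord P) :
    ∃ ht : P.extremePoints ℝ → ℝ, Function.Injective ht ∧
      (∀ v w, ht v < ht w → ∃ i ∈ c.supp v w, ht v < ht (c.nb v i)) ∧
      ∀ v w, w ≠ v → (∀ i ∈ c.supp v w, ht v < ht (c.nb v i)) → ht v < ht w := by
  classical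
  obtain ⟨⟨V, hV, hPV⟩, -⟩ := hP
  have hfin : (P.extremePoints ℝ).Finite := by
    refine hV.subset ?_
    rw [hPV]
    exact extremePoints_convexHull_subset
  obtain ⟨φ, -, hinj⟩ := exists_generic hfin (0 : (Fin d → ℝ) →L[ℝ] ℝ)
  have hexp : ∀ v w : P.extremePoints ℝ,
      φ w.1 - φ v.1 = ∑ i, c.co v i w * (φ (c.nb v i).1 - φ v.1) := by
    intro v w
    rw [← map_sub, Coord.expand (c := c) v w, map_sum]
    refine Finset.sum_congr rfl fun i _ => ?_
    rw [map_smul, smul_eq_mul, map_sub]
  refine ⟨fun x => φ x.1, ?_, ?_, ?_⟩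
  · intro x y hxy
    exact Subtype.ext (hinj x.2 y.2 hxy)
  · intro v w hlt
    by_contra hno
    push Not at hno
    have h1 : ∑ i, c.co v i w * (φ (c.nb v i).1 - φ v.1) ≤ 0 := by
      refine Finset.sum_nonpos fun i _ => ?_
      by_cases hi : i ∈ c.supp v w
      · exact mul_nonpos_of_nonneg_of_nonpos (Coord.co_nonneg _ _ _) (by
          have := hno i hi
          linarith)
      · rw [Coord.mem_supp, not_not] at hi
        rw [hi, zero_mul]
    have h2 := hexp v w
    simp only at hlt
    linarith
  · intro v w hne hall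
    have hnn : ∀ i ∈ (Finset.univ : Finset (Fin d)),
        0 ≤ c.co v i w * (φ (c.nb v i).1 - φ v.1) := by
      intro i _
      by_cases hi : i ∈ c.supp v w
      · have := hall i hi
        exact mul_nonneg (Coord.co_nonneg _ _ _) (by simp only at this; linarith)
      · rw [Coord.mem_supp, not_not] at hi
        rw [hi, zero_mul]
    have hex : ∃ i, i ∈ c.supp v w := by
      by_contra hno
      push Not at hno
      apply hne
      apply Subtype.ext
      have h1 := Coord.expand (c := c) v w
      rw [Finset.sum_eq_zero] at h1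
      · exact sub_eq_zero.mp h1
      · intro i _
        have hi := hno i
        rw [Coord.mem_supp, not_not] at hi
        rw [hi, zero_smul]
    obtain ⟨i, hi⟩ := hex
    have hpos : 0 < ∑ i, c.co v i w * (φ (c.nb v i).1 - φ v.1) := by
      refine Finset.sum_pos' hnn ⟨i, Finset.mem_univ _, ?_⟩
      have := hall i hi
      exact mul_pos (Coord.mem_supp_iff_pos.mp hi) (by simp only at this; linarith)
    have h2 := hexp v w
    simp only
    linarith

end Pool.Agent.Helper82.TotSep
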