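import Pool.Agent.Results.MP_3f7fac_co.LargeN
import Pool.Agent.Helper26.PolySep.Geo

/-!
# Total separability in dimension 3: lower bounds, and few separating nodes
-/

namespace Pool.Agent.Helper82.TotSep

open Set Pool.Agent.Helper70.Poly

/-- the two colour classes of a certificate with `2 n` vertices -/
lemma l3_classes {d : ℕ} (D : SimpleData d) (hd : 1 ≤ d) {n : ℕ} (hn : Nat.card D.W = 2 * n) :
    ∃ M N : Finset (D.P.extremePoints ℝ), M.card = n ∧ N.card = n ∧ Disjoint M N ∧
      ∀ v w, (skel D.P).Adj v w → (v ∈ M ↔ w ∈ N) ∧ (v ∈ N ↔ w ∈ M) := by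
  classical
  have hfinW := D.finW
  have : Fintype D.W := Fintype.ofFinite _
  have hfin : Finite (D.P.extremePoints ℝ) := D.isPoly.finite_extremePoints
  have : Fintype (D.P.extremePoints ℝ) := Fintype.ofFinite _
  let cl : Bool → Finset (D.P.extremePoints ℝ) := fun s =>
    (Finset.univ.filter fun w => D.color w = s).image D.vert
  have hcl : ∀ s w, D.vert w ∈ cl s ↔ D.color w = s := by
    intro s w
    simp only [cl, Finset.mem_image, Finset.mem_filter, Finset.mem_univ, true_and]
    constructor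
    · rintro ⟨w', hw', h⟩
      rw [← D.vert_injective h]
      exact hw'
    · intro h
      exact ⟨w, h, rfl⟩
  have hcard : ∀ s, (cl s).card = (Finset.univ.filter fun w => D.color w = s).card := fun s =>
    Finset.card_image_of_injective _ D.vert_injective
  have hsep : ∀ s, TotallySeparated (skel D.P) (cl (!s)) (cl s) := fun s =>
    D.totallySeparated s _ _ (hcl (!s)) (hcl s)
  have hsum : (cl true).card + (cl false).card = 2 * n := by
    rw [hcard, hcard, ← hn, Nat.card_eq_fintype_card]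
    have := Finset.card_filter_add_card_filter_not (s := (Finset.univ : Finset D.W))
      (fun w => D.color w = true)
    rw [Finset.card_univ] at this
    rw [← this]
    congr 2
    ext w
    simp
  have hne : ∀ s, 1 ≤ (cl s).card := by
    obtain ⟨w⟩ := D.ne
    have hT : 0 < (D.T w).card := by rw [D.card]; omega
    obtain ⟨i, hi⟩ := Finset.card_pos.mp hT
    have hadj := D.adj_nb w ⟨i, hi⟩
    have hcol := D.color_ne _ _ hadj.1 hadj.2
    intro s
    rw [Nat.one_le_iff_ne_zero, Ne, Finset.card_eq_zero, ← Ne, ← Finset.nonempty_iff_ne_empty]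
    by_cases hs : D.color w = s
    · exact ⟨D.vert w, (hcl s w).mpr hs⟩
    · refine ⟨D.vert (D.nb w ⟨i, hi⟩), (hcl s _).mpr ?_⟩
      cases s <;> cases h1 : D.color w <;> cases h2 : D.color (D.nb w ⟨i, hi⟩) <;> simp_all
  have hle : ∀ s, (cl s).card ≤ (cl (!s)).card := by
    intro s
    have : (cl s).card ∈ sepCards (cl (!s)).card d :=
      ⟨D.P, D.isSimplePolytope, cl (!s), cl s, rfl, rfl, hsep s⟩
    exact sepCards_le hd (hne (!s)) this
  have h1 := hle true
  have h2 := hle false
  simp only [Bool.not_true, Bool.not_false] at h1 h2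
  refine ⟨cl false, cl true, by omega, by omega, (hsep true).1, ?_⟩
  intro v w hvw
  obtain ⟨v, rfl⟩ := D.vert_surjective v
  obtain ⟨w, rfl⟩ := D.vert_surjective w
  rw [D.skel_adj_iff] at hvw
  have h3 := D.color_ne v w hvw.1 hvw.2
  rw [hcl, hcl, hcl, hcl]
  cases h4 : D.color v <;> cases h5 : D.color w <;> simp_all

theorem one_mem_sepCards {n : ℕ} (hn : n ≤ 2) : 1 ∈ sepCards n 3 := by
  obtain ⟨D, hD⟩ := Pool.Agent.Results.MP_3f7fac_co.LargeN.good_large 1 6 (by norm_num)
  obtain ⟨M, N, hM, hN, hMN, -⟩ := l3_classes D (by norm_num) hD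
  obtain ⟨M', hM', hM'c⟩ := Finset.exists_subset_card_eq (show n ≤ M.card by omega)
  obtain ⟨N', hN', hN'c⟩ := Finset.exists_subset_card_eq (show 1 ≤ N.card by omega)
  refine ⟨D.P, D.isSimplePolytope, M', N', hM'c, hN'c, ?_, ?_⟩
  · exact (hMN.mono_left hM').mono_right hN'
  · intro a ha b hb hab
    obtain ⟨x, rfl⟩ := Finset.card_eq_one.1 hN'c
    rw [Finset.mem_singleton] at ha hb
    exact absurd (ha.trans hb.symm) hab

theorem four_mem_sepCards : 4 ∈ sepCards 5 3 := by
  classical
  obtain ⟨D, hD⟩ := Pool.Agent.Results.MP_3f7fac_co.LargeN.good_large 1 6 (by norm_num)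
  obtain ⟨M, N, hM, hN, hMN, hadj⟩ := l3_classes D (by norm_num) hD
  have hMpos : 0 < M.card := by omega
  obtain ⟨m0, hm0⟩ := Finset.card_pos.1 hMpos
  set B := N.filter (fun x => (skel D.P).Adj m0 x) with hB
  have hBc : B.card = 3 := by
    have h1 : ((skel D.P).neighborSet m0).ncard = 3 := D.isSimplePolytope.2.2 m0
    have h2 : (skel D.P).neighborSet m0 = (B : Set (D.P.extremePoints ℝ)) := by
      ext x
      rw [SimpleGraph.mem_neighborSet, Finset.mem_coe, hB, Finset.mem_filter]
      constructor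
      · intro h
        exact ⟨(hadj m0 x h).1.1 hm0, h⟩
      · intro h
        exact h.2
    rw [h2, Set.ncard_coe_finset] at h1
    exact h1
  obtain ⟨T, hT, hTc⟩ := Finset.exists_subset_card_eq (show 2 ≤ B.card by omega)
  have hTN : T ⊆ N := hT.trans (Finset.filter_subset _ _)
  -- at most one neighbour of `m0` is left
  have huniq : ∀ a ∈ N \ T, ∀ b ∈ N \ T, (skel D.P).Adj m0 a → (skel D.P).Adj m0 b → a = b := by
    intro a ha b hb h1 h2
    have h3 : (B \ T).card = 1 := by rw [Finset.card_sdiff_of_subset hT]; omega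
    obtain ⟨x, hx⟩ := Finset.card_eq_one.1 h3
    rw [Finset.mem_sdiff] at ha hb
    have h4 : a ∈ B \ T := Finset.mem_sdiff.2 ⟨Finset.mem_filter.2 ⟨ha.1, h1⟩, ha.2⟩
    have h5 : b ∈ B \ T := Finset.mem_sdiff.2 ⟨Finset.mem_filter.2 ⟨hb.1, h2⟩, hb.2⟩
    rw [hx, Finset.mem_singleton] at h4 h5
    rw [h4, h5]
  -- a walk from a node which is not adjacent to `m0`
  have hwalk : ∀ a b : D.P.extremePoints ℝ, a ∈ N \ T → a ≠ b → ¬ (skel D.P).Adj m0 a →
      ∀ p : (skel D.P).Walk a b, ∃ x ∈ p.support, x ∈ M.erase m0 := by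
    intro a b ha hab hna p
    cases p with
    | nil => exact absurd rfl hab
    | @cons _ c _ h q =>
      refine ⟨c, by simp, ?_⟩
      rw [Finset.mem_erase]
      refine ⟨?_, (hadj a c h).2.1 (Finset.mem_sdiff.1 ha).1⟩
      rintro rfl
      exact hna h.symm
  refine ⟨D.P, D.isSimplePolytope, M.erase m0, N \ T, ?_, ?_, ?_, ?_⟩
  · rw [Finset.card_erase_of_mem hm0, hM]
  · rw [Finset.card_sdiff_of_subset hTN, hN, hTc]
  · exact (hMN.mono_left (Finset.erase_subset _ _)).mono_right Finset.sdiff_subset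
  · intro a ha b hb hab p _
    by_cases h1 : (skel D.P).Adj m0 a
    · have h2 : ¬ (skel D.P).Adj m0 b := fun h2 => hab (huniq a ha b hb h1 h2)
      obtain ⟨x, hx, hxM⟩ := hwalk b a hb hab.symm h2 p.reverse
      rw [SimpleGraph.Walk.support_reverse, List.mem_reverse] at hx
      exact ⟨x, hx, hxM⟩
    · exact hwalk a b ha hab h1 p

theorem sepCards_le_one {n d : ℕ} (hn : n < d) : ∀ k ∈ sepCards n d, k ≤ 1 := by
  classical
  rintro k ⟨P, hP, M, N, hM, hN, hsep⟩
  by_contra hlt
  push Not at hlt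
  obtain ⟨a, ha, b, hb, hab⟩ := Finset.one_lt_card.1 (show 1 < N.card by omega)
  refine hsep.not_reachable ha hb hab ?_
  have haM : a ∉ (M : Set (P.extremePoints ℝ)) := fun h' =>
    (Finset.disjoint_left.mp hsep.1) (Finset.mem_coe.1 h') ha
  have hbM : b ∉ (M : Set (P.extremePoints ℝ)) := fun h' =>
    (Finset.disjoint_left.mp hsep.1) (Finset.mem_coe.1 h') hb
  have h := Pool.Agent.Helper26.PolySep.connected_of_simple hP (M : Set (P.extremePoints ℝ))
    {x | (delVerts (skel P) (M : Set (P.extremePoints ℝ))).Reachable a x}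
    (by rw [Set.ncard_coe_finset, hM]; exact hn) ?_ a b haM hbM
  · exact h.1 (SimpleGraph.Reachable.refl a)
  · intro x y hxy hx hy
    have h1 : (delVerts (skel P) (M : Set (P.extremePoints ℝ))).Adj x y := ⟨hxy, hx, hy⟩
    exact ⟨fun h2 => SimpleGraph.Reachable.trans h2 h1.reachable,
      fun h2 => SimpleGraph.Reachable.trans h2 h1.symm.reachable⟩

end Pool.Agent.Helper82.TotSep
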